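import Mathlib
import Pool.Agent.P.MP_2feb70_lc.Forest

namespace Pool.Agent.P.MP_2feb70_lc.Gr

/-- An edge `(top, bot)`. -/
abbrev Edge := ℕ × ℕ
/-- A name: an edge (its top is the identity) and a stage. -/
abbrev Nm := Edge × ℕ∞
/-- Markers and track points. -/
abbrev Pt := ℕ ⊕ (Edge × ℕ)

def cE (e : Edge) : ℕ := Nat.pair e.1 e.2
/-- End level of an edge. -/
def pE (e : Edge) : ℕ := 3 * cE e + 3
/-- Simulator level. -/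
def Si (ε : Edge) (w : ℕ) : ℕ := 3 * Nat.pair (cE ε) w + 4
/-- Shell level. -/
def Sh (e ε : Edge) (w : ℕ) : ℕ := 3 * Nat.pair (cE e) (Nat.pair (cE ε) w) + 5
/-- The name of a marker. -/
def mk (k : ℕ) : Nm := ((k, 0), ⊤)
/-- The 2-adic valuation. -/
def v (t : ℕ) : ℕ := padicValNat 2 t

theorem cE_inj {e e' : Edge} (h : cE e = cE e') : e = e' := by
  have := Nat.pair_eq_pair.1 h
  exact Prod.ext this.1 this.2

theorem pE_inj {e e' : Edge} (h : pE e = pE e') : e = e' := cE_inj (by unfold pE at h; omega)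

theorem Si_inj {ε ε' : Edge} {w w' : ℕ} (h : Si ε w = Si ε' w') : ε = ε' ∧ w = w' := by
  have h1 : Nat.pair (cE ε) w = Nat.pair (cE ε') w' := by unfold Si at h; omega
  have := Nat.pair_eq_pair.1 h1
  exact ⟨cE_inj this.1, this.2⟩

theorem Sh_inj {e e' ε ε' : Edge} {w w' : ℕ} (h : Sh e ε w = Sh e' ε' w') :
    e = e' ∧ ε = ε' ∧ w = w' := by
  have h1 : Nat.pair (cE e) (Nat.pair (cE ε) w) = Nat.pair (cE e') (Nat.pair (cE ε') w') := by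
    unfold Sh at h; omega
  have h2 := Nat.pair_eq_pair.1 h1
  have h3 := Nat.pair_eq_pair.1 h2.2
  exact ⟨cE_inj h2.1, cE_inj h3.1, h3.2⟩

theorem fst_le_cE (e : Edge) : e.1 ≤ cE e := Nat.left_le_pair _ _
theorem snd_le_cE (e : Edge) : e.2 ≤ cE e := Nat.right_le_pair _ _

theorem Si_ge (ε : Edge) (w : ℕ) : cE ε < Si ε w ∧ w < Si ε w := by
  have := Nat.left_le_pair (cE ε) w
  have := Nat.right_le_pair (cE ε) w
  unfold Si; omega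

theorem Sh_ge (e ε : Edge) (w : ℕ) : pE e + 1 < Sh e ε w ∧ cE ε < Sh e ε w ∧ w < Sh e ε w := by
  have := Nat.left_le_pair (cE ε) w
  have := Nat.right_le_pair (cE ε) w
  have := Nat.left_le_pair (cE e) (Nat.pair (cE ε) w)
  have := Nat.right_le_pair (cE e) (Nat.pair (cE ε) w)
  unfold Sh pE; omega

theorem pE_ne_Si (e ε : Edge) (w : ℕ) : pE e ≠ Si ε w := by unfold pE Si; omega
theorem pE_ne_Sh (e e' ε : Edge) (w : ℕ) : pE e ≠ Sh e' ε w := by unfold pE Sh; omega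
theorem pE_succ_ne_Sh (e e' ε : Edge) (w : ℕ) : pE e + 1 ≠ Sh e' ε w := by unfold pE Sh; omega
theorem Si_ne_Sh (ε' e ε : Edge) (w' w : ℕ) : Si ε' w' ≠ Sh e ε w := by unfold Si Sh; omega
theorem three_le_pE (e : Edge) : 3 ≤ pE e := by unfold pE; omega
theorem cE_lt_pE (e : Edge) : cE e < pE e := by unfold pE; omega

theorem mk_inj {k l : ℕ} (h : mk k = mk l) : k = l := congrArg (fun a : Nm => a.1.1) h

@[simp] theorem v_zero : v 0 = 0 := by simp [v]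
@[simp] theorem v_pow (n : ℕ) : v (2 ^ n) = n := by simp [v]
theorem pow_v_dvd (t : ℕ) : 2 ^ v t ∣ t := pow_padicValNat_dvd

theorem le_v_iff {t n : ℕ} (ht : t ≠ 0) : n ≤ v t ↔ 2 ^ n ∣ t :=
  (padicValNat_dvd_iff_le ht).symm

theorem pow_v_le {t : ℕ} (ht : t ≠ 0) : 2 ^ v t ≤ t :=
  Nat.le_of_dvd (Nat.pos_of_ne_zero ht) (pow_v_dvd t)

theorem v_add {Q t n : ℕ} (hQ : 2 ^ n ∣ Q) (ht : t ≠ 0) (h : v t < n) : v (Q + t) = v t := by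
  have h0 : Q + t ≠ 0 := by omega
  refine le_antisymm ?_ ?_
  · by_contra h1
    have h2 : 2 ^ (v t + 1) ∣ Q + t := (le_v_iff h0).1 (by omega)
    have h3 : 2 ^ (v t + 1) ∣ Q := (pow_dvd_pow 2 (by omega)).trans hQ
    have h4 := (le_v_iff ht).2 ((Nat.dvd_add_right h3).1 h2)
    omega
  · exact (le_v_iff h0).2 (dvd_add ((pow_dvd_pow 2 h.le).trans hQ) (pow_v_dvd t))

theorem v_lt_of_lt {t n : ℕ} (ht : t ≠ 0) (h : t < 2 ^ n) : v t < n :=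
  (Nat.pow_lt_pow_iff_right (by norm_num)).1 ((pow_v_le ht).trans_lt h)

theorem v_add' {Q t n : ℕ} (hQ : 2 ^ n ∣ Q) (ht : t ≠ 0) (h : t < 2 ^ n) : v (Q + t) = v t :=
  v_add hQ ht (v_lt_of_lt ht h)

variable (ρ : ℕ → Ordinal.{1})

/-- An edge is valid when its bottom is below its top. -/
def valid (e : Edge) : Prop := lab_lt ρ e.2 e.1

open Classical in
/-- Mode (0 none, 1 role, 2 start, 3 end) and name of an inner track point, from two levels. -/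
noncomputable def G (n n' : ℕ) : Fin 4 × Nm :=
  if h : ∃ a : Edge × ℕ, n = Si a.1 a.2 ∧ valid ρ a.1 then (1, (h.choose.1, (h.choose.2 : ℕ∞)))
  else if h : ∃ a : Edge × Edge × ℕ, n = Sh a.1 a.2.1 a.2.2 ∧ a.2.1.1 = a.1.1 then
    (2, (h.choose.2.1, (h.choose.2.2 : ℕ∞)))
  else if h : ∃ a : Edge × Edge × ℕ, n = pE a.1 ∧ n' = Sh a.1 a.2.1 a.2.2 then
    (3, ((h.choose.1.2, 0), if h.choose.2.1 = h.choose.1 then (h.choose.2.2 : ℕ∞) else ⊤))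
  else (0, mk 0)

/-- Mode and name of a point. -/
noncomputable def ft : Pt → Fin 4 × Nm
  | .inl k => (1, mk k)
  | .inr (e, t) => if t = 0 then (2, mk e.1) else if t = 2 ^ pE e then (3, mk e.2)
      else G ρ (v t) (v (t - 2 ^ v t))

variable {ρ}

theorem G_Si {ε : Edge} (h : valid ρ ε) (w n' : ℕ) : G ρ (Si ε w) n' = (1, (ε, (w : ℕ∞))) := by
  have h1 : ∃ a : Edge × ℕ, Si ε w = Si a.1 a.2 ∧ valid ρ a.1 := ⟨(ε, w), rfl, h⟩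
  obtain ⟨h2, h3⟩ := Si_inj h1.choose_spec.1
  rw [G, dif_pos h1, ← h2, ← h3]

theorem G_Sh {e ε : Edge} (h : ε.1 = e.1) (w n' : ℕ) :
    G ρ (Sh e ε w) n' = (2, (ε, (w : ℕ∞))) := by
  have h0 : ¬ ∃ a : Edge × ℕ, Sh e ε w = Si a.1 a.2 ∧ valid ρ a.1 :=
    fun ⟨a, ha, _⟩ => Si_ne_Sh _ _ _ _ _ ha.symm
  have h1 : ∃ a : Edge × Edge × ℕ, Sh e ε w = Sh a.1 a.2.1 a.2.2 ∧ a.2.1.1 = a.1.1 :=
    ⟨(e, ε, w), rfl, h⟩
  obtain ⟨-, h2, h3⟩ := Sh_inj h1.choose_spec.1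
  rw [G, dif_neg h0, dif_pos h1, ← h2, ← h3]

theorem G_pE (e ε : Edge) (w : ℕ) :
    G ρ (pE e) (Sh e ε w) = (3, ((e.2, 0), if ε = e then (w : ℕ∞) else ⊤)) := by
  have h0 : ¬ ∃ a : Edge × ℕ, pE e = Si a.1 a.2 ∧ valid ρ a.1 :=
    fun ⟨a, ha, _⟩ => pE_ne_Si _ _ _ ha
  have h0' : ¬ ∃ a : Edge × Edge × ℕ, pE e = Sh a.1 a.2.1 a.2.2 ∧ a.2.1.1 = a.1.1 :=
    fun ⟨a, ha, _⟩ => pE_ne_Sh _ _ _ _ ha
  have h1 : ∃ a : Edge × Edge × ℕ, pE e = pE a.1 ∧ Sh e ε w = Sh a.1 a.2.1 a.2.2 :=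
    ⟨(e, ε, w), rfl, rfl⟩
  obtain ⟨h4, h2, h3⟩ := Sh_inj h1.choose_spec.2
  rw [G, dif_neg h0, dif_neg h0', dif_pos h1, ← h2, ← h3, ← h4]

theorem G_cases (n n' : ℕ) : (G ρ n n').1 = 0 ∨
    (∃ ε w, n = Si ε w ∧ valid ρ ε ∧ G ρ n n' = (1, (ε, (w : ℕ∞)))) ∨
    (∃ e ε w, n = Sh e ε w ∧ ε.1 = e.1 ∧ G ρ n n' = (2, (ε, (w : ℕ∞)))) ∨
    (∃ e ε w, n = pE e ∧ n' = Sh e ε w ∧
      G ρ n n' = (3, ((e.2, 0), if ε = e then (w : ℕ∞) else ⊤))) := by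
  by_cases h1 : ∃ a : Edge × ℕ, n = Si a.1 a.2 ∧ valid ρ a.1
  · obtain ⟨a, rfl, h⟩ := h1
    exact Or.inr (Or.inl ⟨_, _, rfl, h, G_Si h _ _⟩)
  by_cases h2 : ∃ a : Edge × Edge × ℕ, n = Sh a.1 a.2.1 a.2.2 ∧ a.2.1.1 = a.1.1
  · obtain ⟨a, rfl, h⟩ := h2
    exact Or.inr (Or.inr (Or.inl ⟨_, _, _, rfl, h, G_Sh h _ _⟩))
  by_cases h3 : ∃ a : Edge × Edge × ℕ, n = pE a.1 ∧ n' = Sh a.1 a.2.1 a.2.2
  · obtain ⟨a, rfl, rfl⟩ := h3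
    exact Or.inr (Or.inr (Or.inr ⟨_, _, _, rfl, rfl, G_pE _ _ _⟩))
  · left
    rw [G, dif_neg h1, dif_neg h2, dif_neg h3]

theorem G_second {n n' : ℕ} (h : ∀ e ε w, n = pE e → n' ≠ Sh e ε w) : G ρ n n' = G ρ n 0 := by
  have h1 : ¬ ∃ a : Edge × Edge × ℕ, n = pE a.1 ∧ n' = Sh a.1 a.2.1 a.2.2 :=
    fun ⟨a, h1, h2⟩ => h _ _ _ h1 h2
  have h2 : ¬ ∃ a : Edge × Edge × ℕ, n = pE a.1 ∧ 0 = Sh a.1 a.2.1 a.2.2 :=
    fun ⟨a, _, h2⟩ => by unfold Sh at h2; omega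
  rw [G, G, dif_neg h1, dif_neg h2]

theorem ft_zero (e : Edge) : ft ρ (.inr (e, 0)) = (2, mk e.1) := by simp [ft]

theorem ft_end (e : Edge) : ft ρ (.inr (e, 2 ^ pE e)) = (3, mk e.2) := by simp [ft]

theorem ft_mid {e : Edge} {t : ℕ} (h0 : t ≠ 0) (h1 : t ≠ 2 ^ pE e) :
    ft ρ (.inr (e, t)) = G ρ (v t) (v (t - 2 ^ v t)) := by simp [ft, h0, h1]

/-- All possibilities for a track point. -/
theorem ft_cases (e : Edge) (t : ℕ) : (ft ρ (.inr (e, t))).1 = 0 ∨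
    (t = 0 ∧ ft ρ (.inr (e, t)) = (2, mk e.1)) ∨
    (t = 2 ^ pE e ∧ ft ρ (.inr (e, t)) = (3, mk e.2)) ∨
    (∃ ε w, v t = Si ε w ∧ valid ρ ε ∧ ft ρ (.inr (e, t)) = (1, (ε, (w : ℕ∞)))) ∨
    (∃ e' ε w, v t = Sh e' ε w ∧ ε.1 = e'.1 ∧ ft ρ (.inr (e, t)) = (2, (ε, (w : ℕ∞)))) ∨
    (∃ e' ε w, v t = pE e' ∧ v (t - 2 ^ pE e') = Sh e' ε w ∧
      ft ρ (.inr (e, t)) = (3, ((e'.2, 0), if ε = e' then (w : ℕ∞) else ⊤))) := by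
  by_cases h0 : t = 0
  · subst h0; exact Or.inr (Or.inl ⟨rfl, ft_zero e⟩)
  by_cases h1 : t = 2 ^ pE e
  · subst h1; exact Or.inr (Or.inr (Or.inl ⟨rfl, ft_end e⟩))
  rw [ft_mid h0 h1]
  rcases G_cases (ρ := ρ) (v t) (v (t - 2 ^ v t)) with h | h | h | ⟨e', ε, w, h2, h3, h4⟩
  · exact Or.inl h
  · exact Or.inr (Or.inr (Or.inr (Or.inl h)))
  · exact Or.inr (Or.inr (Or.inr (Or.inr (Or.inl h))))
  · exact Or.inr (Or.inr (Or.inr (Or.inr (Or.inr ⟨e', ε, w, h2, h2 ▸ h3, h4⟩))))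

theorem eight_dvd {e : Edge} {t : ℕ} (h : (ft ρ (.inr (e, t))).1 ≠ 0) : 8 ∣ t := by
  have key : 3 ≤ v t → 8 ∣ t := fun h3 =>
    (show 8 ∣ 2 ^ v t from pow_dvd_pow 2 h3).trans (pow_v_dvd t)
  rcases ft_cases (ρ := ρ) e t with h1 | ⟨rfl, -⟩ | ⟨rfl, -⟩ | ⟨ε, w, h1, -⟩ | ⟨e', ε, w, h1, -⟩ |
    ⟨e', ε, w, h1, -⟩
  · exact absurd h1 h
  · exact dvd_zero _
  · exact key (by rw [v_pow]; exact three_le_pE e)
  · exact key (by rw [h1, Si]; omega)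
  · exact key (by rw [h1, Sh]; omega)
  · exact key (by rw [h1]; exact three_le_pE e')

/-- Consecutive points of a track. -/
def Succ (x y : Pt) : Prop := ∃ e t, x = .inr (e, t) ∧ y = .inr (e, t + 1)

/-- A role is linked to the starts of the same name and to the ends that accept it. -/
def lk (a b : Fin 4 × Nm) : Prop :=
  a.1 = 1 ∧ ((b.1 = 2 ∧ a.2 = b.2) ∨ (b.1 = 3 ∧ a.2.1.1 = b.2.1.1 ∧ a.2.2 ≤ b.2.2))

/-- The points of the structure. -/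
def Dom (ρ : ℕ → Ordinal.{1}) : Set Pt :=
  {x | ∀ e t, x = .inr (e, t) → valid ρ e ∧ t ≤ 2 ^ pE e}

theorem inl_mem_Dom (k : ℕ) : (.inl k : Pt) ∈ Dom ρ := fun _ _ h => by cases h

theorem inr_mem_Dom {e : Edge} {t : ℕ} : (.inr (e, t) : Pt) ∈ Dom ρ ↔ valid ρ e ∧ t ≤ 2 ^ pE e :=
  ⟨fun h => h e t rfl, fun h _ _ h' => by cases h'; exact h⟩

/-- `X` embeds into `Y`, keeping successor, modes and links. -/
def Emb (ρ : ℕ → Ordinal.{1}) (X Y : Finset Pt) : Prop :=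
  ∃ f : Pt → Pt, (∀ x ∈ X, f x ∈ Y) ∧ (∀ x ∈ X, (ft ρ (f x)).1 = (ft ρ x).1) ∧
    ∀ x ∈ X, ∀ y ∈ X, (f x = f y → x = y) ∧ (Succ (f x) (f y) ↔ Succ x y) ∧
      (lk (ft ρ (f x)) (ft ρ (f y)) ↔ lk (ft ρ x) (ft ρ y))

theorem succ_inr {e e' : Edge} {t t' : ℕ} :
    Succ (.inr (e, t)) (.inr (e', t')) ↔ e = e' ∧ t + 1 = t' := by
  constructor
  · rintro ⟨e'', t'', h1, h2⟩
    cases h1; cases h2; exact ⟨rfl, rfl⟩
  · rintro ⟨rfl, rfl⟩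
    exact ⟨_, _, rfl, rfl⟩

theorem not_succ_inl_left (k : ℕ) (y : Pt) : ¬ Succ (.inl k) y := fun ⟨_, _, h, _⟩ => by cases h
theorem not_succ_inl_right (k : ℕ) (x : Pt) : ¬ Succ x (.inl k) := fun ⟨_, _, _, h⟩ => by cases h

end Pool.Agent.P.MP_2feb70_lc.Gr
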