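import Mathlib
import Pool.Agent.P.MP_2feb70_lc.Gr.Str

namespace Pool.Agent.P.MP_2feb70_lc.Gr

variable {ρ : ℕ → Ordinal.{1}}

/-- The identities whose whole down-set is present. -/
def J (ρ : ℕ → Ordinal.{1}) (X : Finset Pt) : Set ℕ :=
  {j | ∀ j', lab_le ρ j' j → Sum.inl j' ∈ X ∧
    ∀ e t, e.1 = j' → Sum.inr (e, t) ∈ Dom ρ → Sum.inr (e, t) ∈ X}

theorem pow_add_inj {a b u u' : ℕ} (h1 : u < 2 ^ a) (h2 : u' < 2 ^ b)
    (h : 2 ^ a + u = 2 ^ b + u') : a = b ∧ u = u' := by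
  have key : ∀ {a b u u' : ℕ}, u < 2 ^ a → 2 ^ a + u = 2 ^ b + u' → ¬ a < b := by
    intro a b u u' h1 h hab
    have : 2 ^ (a + 1) ≤ 2 ^ b := Nat.pow_le_pow_right (by norm_num) hab
    rw [pow_succ] at this
    omega
  have hab : a = b := le_antisymm (not_lt.1 (key h2 h.symm)) (not_lt.1 (key h1 h))
  subst hab
  exact ⟨rfl, by omega⟩

/-- How features change under the translation into a long run. -/
def Cl (J K : Set ℕ) (en : ℕ → Edge) (w : ℕ) (a a' : Fin 4 × Nm) : Prop :=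
  (a' = a ∧ (a.2.2 < w ∨ (a.2.2 = ⊤ ∧ (a.1 = 1 ∨ a.1 = 2 → a.2.1.1 ∈ J)))) ∨
  (∃ k, k ∉ J ∧ k ∈ K ∧ (en k).1 = k ∧ a = (1, mk k) ∧ a' = (1, (en k, (w : ℕ∞)))) ∨
  (∃ l ε, l ∉ J ∧ ε.1 = l ∧ (l ∈ K → ε = en l) ∧ a = (2, mk l) ∧ a' = (2, (ε, (w : ℕ∞)))) ∨
  (∃ i, i ∉ J ∧ a = (3, mk i) ∧ a' = (3, ((i, 0), (w : ℕ∞))))

theorem Cl.fst {J K : Set ℕ} {en : ℕ → Edge} {w : ℕ} {a a' : Fin 4 × Nm}
    (h : Cl J K en w a a') : a'.1 = a.1 := by
  rcases h with ⟨rfl, -⟩ | ⟨k, -, -, -, rfl, rfl⟩ | ⟨l, ε, -, -, -, rfl, rfl⟩ | ⟨i, -, rfl, rfl⟩ <;>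
    rfl

theorem Cl.lk_iff {J K : Set ℕ} {en : ℕ → Edge} {w : ℕ} {a a' b b' : Fin 4 × Nm}
    (ha : Cl J K en w a a') (hb : Cl J K en w b b') : lk a' b' ↔ lk a b := by
  rcases ha with ⟨rfl, ha⟩ | ⟨k, k1, k2, k3, rfl, rfl⟩ | ⟨l, ε, -, -, -, rfl, rfl⟩ |
    ⟨i, -, rfl, rfl⟩
  · rcases hb with ⟨rfl, hb⟩ | ⟨k, -, -, -, rfl, rfl⟩ | ⟨l, ε, l1, l2, l3, rfl, rfl⟩ |
      ⟨i, i1, rfl, rfl⟩
    · rfl
    · simp [lk]
    · obtain ⟨m, ⟨x, y⟩, τ⟩ := a'
      simp only [lk, mk, Prod.mk.injEq, true_and, show (2 : Fin 4) ≠ 3 by decide, false_and,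
        or_false] at ha ⊢
      refine and_congr_right fun hm => ⟨?_, ?_⟩
      · rintro ⟨-, rfl⟩
        rcases ha with ha | ⟨ha, -⟩
        · exact absurd ha (lt_irrefl _)
        · exact absurd ha (ENat.natCast_ne_top _)
      · rintro ⟨⟨rfl, -⟩, rfl⟩
        rcases ha with ha | ⟨-, ha⟩
        · exact absurd ha not_top_lt
        · exact absurd (ha (Or.inl hm)) l1
    · obtain ⟨m, ⟨x, y⟩, τ⟩ := a'
      simp only [lk, mk, true_and, show (3 : Fin 4) ≠ 2 by decide, false_and, false_or,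
        le_top, and_true] at ha ⊢
      refine and_congr_right fun hm => ⟨fun h => h.1, ?_⟩
      rintro rfl
      rcases ha with ha | ⟨-, ha⟩
      · exact ⟨rfl, ha.le⟩
      · exact absurd (ha (Or.inl hm)) i1
  · rcases hb with ⟨rfl, hb⟩ | ⟨k', -, -, -, rfl, rfl⟩ | ⟨l, ε, l1, l2, l3, rfl, rfl⟩ |
      ⟨i, i1, rfl, rfl⟩
    · obtain ⟨m, ⟨x, y⟩, τ⟩ := b'
      simp only [lk, mk, true_and, Prod.mk.injEq, k3, top_le_iff] at hb ⊢
      refine or_congr (and_congr_right fun hm => ⟨?_, ?_⟩)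
        (and_congr_right fun _ => and_congr_right fun _ => ⟨?_, ?_⟩)
      · rintro ⟨-, rfl⟩
        rcases hb with hb | ⟨hb, -⟩
        · exact absurd hb (lt_irrefl _)
        · exact absurd hb (ENat.natCast_ne_top _)
      · rintro ⟨⟨rfl, -⟩, rfl⟩
        rcases hb with hb | ⟨-, hb⟩
        · exact absurd hb not_top_lt
        · exact absurd (hb (Or.inr hm)) k1
      · intro h
        rcases hb with hb | ⟨hb, -⟩
        · exact absurd h hb.not_ge
        · exact hb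
      · rintro rfl
        exact le_top
    · simp [lk]
    · simp only [lk, mk, true_and, Prod.mk.injEq, show (2 : Fin 4) ≠ 3 by decide, false_and,
        or_false, and_true]
      constructor
      · intro h
        rw [← k3, h, l2]
      · rintro rfl
        exact (l3 k2).symm
    · simp [lk, mk, k3]
  · simp [lk]
  · simp [lk]

theorem exists_enemy {X : Finset Pt} (hX : ∀ x ∈ X, x ∈ Dom ρ) (k : ℕ) :
    ∃ (e : Edge) (b : ℕ), Sum.inl k ∈ X → k ∉ J ρ X → valid ρ e ∧ e.1 = k ∧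
      Sum.inr (e, b) ∉ X ∧ (2 ^ pE e < b → e.2 ∉ J ρ X) := by
  by_cases h1 : Sum.inl k ∈ X
  swap
  · exact ⟨(0, 0), 0, fun h => absurd h h1⟩
  by_cases h2 : k ∈ J ρ X
  · exact ⟨(0, 0), 0, fun _ h => absurd h2 h⟩
  have h3 : ∃ j', lab_le ρ j' k ∧ ¬ (Sum.inl j' ∈ X ∧
      ∀ e t, e.1 = j' → Sum.inr (e, t) ∈ Dom ρ → Sum.inr (e, t) ∈ X) := by
    by_contra h
    exact h2 fun j' hj' => by_contra fun h' => h ⟨j', hj', h'⟩
  obtain ⟨j, hj, hj'⟩ := h3
  rcases hj.1.eq_or_lt with rfl | hlt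
  · have h4 : ∃ e t, e.1 = j ∧ Sum.inr (e, t) ∈ Dom ρ ∧ Sum.inr (e, t) ∉ X := by
      by_contra h
      exact hj' ⟨h1, fun e t a b => by_contra fun c => h ⟨e, t, a, b, c⟩⟩
    obtain ⟨e, t, a, b, c⟩ := h4
    exact ⟨e, t, fun _ _ => ⟨(inr_mem_Dom.1 b).1, a, c,
      fun h => absurd (inr_mem_Dom.1 b).2 h.not_ge⟩⟩
  · refine ⟨(k, j), 2 ^ pE (k, j) + 1, fun _ _ => ⟨⟨hlt, hj.2⟩, rfl, fun h => ?_,
      fun _ h => hj' (h j ⟨le_rfl, le_rfl⟩)⟩⟩
    have := (inr_mem_Dom.1 (hX _ h)).2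
    omega

/-- Features of a block translated to `Q + 2 ^ n`. -/
theorem ft_shift {e ε eY : Edge} {w Q t : ℕ} (hQ : 2 ^ (Sh e ε w + 1) ∣ Q) (h0 : t ≠ 0)
    (h1 : t < 2 ^ pE e) :
    ft ρ (.inr (eY, Q + 2 ^ Sh e ε w + t)) = ft ρ (.inr (e, t)) := by
  have hp := (Sh_ge e ε w).1
  have hT : 2 ^ Sh e ε w ∣ Q + 2 ^ Sh e ε w :=
    dvd_add ((pow_dvd_pow 2 (Nat.le_succ _)).trans hQ) dvd_rfl
  have hlt : t < 2 ^ Sh e ε w := h1.trans (Nat.pow_lt_pow_right (by norm_num) (by omega))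
  have hv : v (Q + 2 ^ Sh e ε w + t) = v t := v_add' hT h0 hlt
  have hle := pow_v_le h0
  have hpos : 0 < 2 ^ Sh e ε w := by positivity
  have hne : Q + 2 ^ Sh e ε w + t ≠ 2 ^ pE eY := by
    intro h
    rw [h, v_pow] at hv
    rw [hv] at h
    omega
  rw [ft_mid (by omega) hne, ft_mid h0 h1.ne, hv]
  by_cases h2 : t = 2 ^ v t
  · rw [show Q + 2 ^ Sh e ε w + t - 2 ^ v t = Q + 2 ^ Sh e ε w by omega,
      show t - 2 ^ v t = 0 by omega, v_zero,
      v_add hQ hpos.ne' (by rw [v_pow]; omega), v_pow]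
    refine G_second fun e' ε' w' h3 h4 => ?_
    rw [← (Sh_inj h4).1] at h3
    exact absurd (v_lt_of_lt h0 h1) (by omega)
  · rw [show Q + 2 ^ Sh e ε w + t - 2 ^ v t = Q + 2 ^ Sh e ε w + (t - 2 ^ v t) by omega,
      v_add' hT (by omega) ((Nat.sub_le _ _).trans_lt hlt)]

theorem ft_shift_zero {e ε eY : Edge} {w Q : ℕ} (hQ : 2 ^ (Sh e ε w + 1) ∣ Q) (h : ε.1 = e.1) :
    ft ρ (.inr (eY, Q + 2 ^ Sh e ε w + 0)) = (2, (ε, (w : ℕ∞))) := by
  have hpos : 0 < 2 ^ Sh e ε w := by positivity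
  have hv : v (Q + 2 ^ Sh e ε w) = Sh e ε w := by
    rw [v_add hQ hpos.ne' (by rw [v_pow]; omega), v_pow]
  rw [add_zero, ft_mid (by omega) fun h => pE_ne_Sh _ _ _ _ (by rw [h, v_pow] at hv; exact hv), hv,
    G_Sh h]

theorem ft_shift_sim {ε eY : Edge} {w Q : ℕ} (hQ : 2 ^ (Si ε w + 1) ∣ Q) (h : valid ρ ε) :
    ft ρ (.inr (eY, Q + 2 ^ Si ε w + 0)) = (1, (ε, (w : ℕ∞))) := by
  have hpos : 0 < 2 ^ Si ε w := by positivity
  have hv : v (Q + 2 ^ Si ε w) = Si ε w := by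
    rw [v_add hQ hpos.ne' (by rw [v_pow]; omega), v_pow]
  rw [add_zero, ft_mid (by omega) fun h => pE_ne_Si _ _ _ (by rw [h, v_pow] at hv; exact hv), hv,
    G_Si h]

theorem ft_shift_end {e ε eY : Edge} {w Q : ℕ} (hQ : 2 ^ (Sh e ε w + 1) ∣ Q) :
    ft ρ (.inr (eY, Q + 2 ^ Sh e ε w + 2 ^ pE e)) =
      (3, ((e.2, 0), if ε = e then (w : ℕ∞) else ⊤)) := by
  have hp := (Sh_ge e ε w).1
  have hT : 2 ^ Sh e ε w ∣ Q + 2 ^ Sh e ε w :=
    dvd_add ((pow_dvd_pow 2 (Nat.le_succ _)).trans hQ) dvd_rfl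
  have hpos : 0 < 2 ^ Sh e ε w := by positivity
  have hpos' : 0 < 2 ^ pE e := by positivity
  have hv : v (Q + 2 ^ Sh e ε w + 2 ^ pE e) = pE e := by
    rw [v_add hT hpos'.ne' (by rw [v_pow]; omega), v_pow]
  have hne : Q + 2 ^ Sh e ε w + 2 ^ pE e ≠ 2 ^ pE eY := by
    intro h
    rw [h, v_pow] at hv
    rw [hv] at h
    omega
  rw [ft_mid (by omega) hne, hv, Nat.add_sub_cancel,
    v_add hQ hpos.ne' (by rw [v_pow]; omega), v_pow, G_pE]

/-- The identity a point belongs to. -/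
def top : Pt → ℕ
  | .inl k => k
  | .inr (e, _) => e.1

/-- The position of a point. -/
def pos : Pt → ℕ
  | .inl _ => 0
  | .inr (_, t) => t

theorem long {X : Finset Pt} (hX : ∀ x ∈ X, x ∈ Dom ρ) : ∃ N, ∀ Y : Finset Pt,
    (∀ y ∈ Y, y ∈ Dom ρ) → J ρ X ⊆ J ρ Y → (∃ e s, ∀ t ≤ N, Sum.inr (e, s + t) ∈ Y) →
      Emb ρ X Y := by
  classical
  choose en b hen using exists_enemy hX
  obtain ⟨w, hw1, hw2⟩ : ∃ w : ℕ, (∀ e t, Sum.inr (e, t) ∈ X → pE e < w) ∧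
      ∀ x ∈ X, (ft ρ x).2.2 = ⊤ ∨ (ft ρ x).2.2 < w := by
    let g : Pt → ℕ := fun x => (ft ρ x).2.2.toNat + Sum.elim (fun _ => 0) (fun p => pE p.1) x
    refine ⟨X.sup g + 1, fun e t h => ?_, fun x hx => ?_⟩
    · have : (ft ρ (.inr (e, t))).2.2.toNat + pE e ≤ X.sup g :=
        Finset.le_sup (f := g) h
      omega
    · have : (ft ρ x).2.2.toNat ≤ X.sup g :=
        (Nat.le_add_right _ _).trans (Finset.le_sup (f := g) hx)
      generalize (ft ρ x).2.2 = τ at this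
      induction τ using ENat.recTopCoe with
      | top => exact Or.inl rfl
      | coe a =>
        right
        rw [ENat.toNat_natCast] at this
        exact_mod_cast (by omega : a < X.sup g + 1)
  let ε : Edge → ℕ → Edge := fun e t =>
    if Sum.inl e.1 ∈ X ∧ (e ≠ en e.1 ∨ t < b e.1) then en e.1 else (e.1, e.1)
  let lev : Pt → ℕ := Sum.elim (fun k => Si (en k) w) (fun p => Sh p.1 (ε p.1 p.2) w)
  have hA : ∀ x ∈ X, pos x + 1 < 2 ^ lev x := by
    rintro (k | ⟨e, t⟩) hx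
    · exact Nat.one_lt_two_pow (by simp [lev, Si])
    · have h1 := (inr_mem_Dom.1 (hX _ hx)).2
      have h2 : 2 ^ (pE e + 2) ≤ 2 ^ Sh e (ε e t) w :=
        Nat.pow_le_pow_right (by norm_num) (Sh_ge _ _ _).1
      have h3 : 0 < 2 ^ pE e := by positivity
      rw [pow_add] at h2
      change t + 1 < 2 ^ Sh e (ε e t) w
      omega
  let N0 := X.sup lev + w + 1
  refine ⟨2 ^ N0 + 2 ^ N0, ?_⟩
  rintro Y hY hJ ⟨eY, s, hrun⟩
  have hN : 0 < 2 ^ N0 := by positivity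
  obtain ⟨Q, hQ1, hQ2, hQ3⟩ : ∃ Q, 2 ^ N0 ∣ Q ∧ s ≤ Q ∧ Q ≤ s + 2 ^ N0 := by
    refine ⟨2 ^ N0 * (s / 2 ^ N0 + 1), dvd_mul_right _ _, ?_, ?_⟩
    · exact (Nat.lt_mul_div_succ s hN).le
    · rw [mul_add, mul_one]
      exact Nat.add_le_add_right (Nat.mul_div_le _ _) _
  have hlev : ∀ x ∈ X, lev x + 1 ≤ N0 := fun x hx => by
    have : lev x ≤ X.sup lev := Finset.le_sup hx
    omega
  have hQ : ∀ x ∈ X, 2 ^ (lev x + 1) ∣ Q := fun x hx => (pow_dvd_pow 2 (hlev x hx)).trans hQ1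
  have hB : eY.1 ∉ J ρ X := by
    intro h
    obtain ⟨h1, h2⟩ := inr_mem_Dom.1 (hY _ (hrun _ le_rfl))
    have h3 := hw1 _ _ ((h eY.1 ⟨le_rfl, le_rfl⟩).2 eY 0 rfl (inr_mem_Dom.2 ⟨h1, Nat.zero_le _⟩))
    have h4 : 2 ^ pE eY ≤ 2 ^ N0 := Nat.pow_le_pow_right (by norm_num) (by omega)
    omega
  let f : Pt → Pt := fun x =>
    if top x ∈ J ρ X then x else .inr (eY, Q + 2 ^ lev x + pos x)
  have hε : ∀ e t, e.1 ∉ J ρ X → (ε e t).1 = e.1 := by
    intro e t h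
    by_cases h1 : Sum.inl e.1 ∈ X ∧ (e ≠ en e.1 ∨ t < b e.1)
    · simp only [ε, if_pos h1]; exact (hen _ h1.1 h).2.1
    · simp only [ε, if_neg h1]
  have hCl : ∀ x ∈ X, Cl (J ρ X) {k | Sum.inl k ∈ X} en w (ft ρ x) (ft ρ (f x)) := by
    have hsame : ∀ e t, Sum.inr (e, t) ∈ X → (t = 0 → e.1 ∈ J ρ X) →
        (ft ρ (.inr (e, t))).2.2 < w ∨ ((ft ρ (.inr (e, t))).2.2 = ⊤ ∧
          ((ft ρ (.inr (e, t))).1 = 1 ∨ (ft ρ (.inr (e, t))).1 = 2 →
            (ft ρ (.inr (e, t))).2.1.1 ∈ J ρ X)) := by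
      intro e t hx ht
      rcases hw2 _ hx with h | h
      swap
      · exact Or.inl h
      refine Or.inr ⟨h, fun h' => ?_⟩
      rcases ft_cases (ρ := ρ) e t with h1 | ⟨h0, h1⟩ | ⟨-, h1⟩ | ⟨ε, w, -, -, h1⟩ |
        ⟨e', ε, w, -, -, h1⟩ | ⟨e', ε, w, -, -, h1⟩
      · rw [h1] at h'; simp at h'
      · rw [h1]; exact ht h0
      · rw [h1] at h'; simp at h'
      · rw [h1] at h; simp at h
      · rw [h1] at h; simp at h
      · rw [h1] at h'; simp at h'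
    rintro (k | ⟨e, t⟩) hx
    · by_cases h : k ∈ J ρ X
      · have : f (.inl k) = .inl k := if_pos h
        rw [this]
        exact Or.inl ⟨rfl, Or.inr ⟨rfl, fun _ => h⟩⟩
      · have : f (.inl k) = .inr (eY, Q + 2 ^ Si (en k) w + 0) := if_neg h
        rw [this, ft_shift_sim (hQ _ hx) (hen k hx h).1]
        exact Or.inr (Or.inl ⟨k, h, hx, (hen k hx h).2.1, rfl, rfl⟩)
    · by_cases h : e.1 ∈ J ρ X
      · have : f (.inr (e, t)) = .inr (e, t) := if_pos h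
        rw [this]
        exact Or.inl ⟨rfl, hsame e t hx fun _ => h⟩
      have hf : f (.inr (e, t)) = .inr (eY, Q + 2 ^ Sh e (ε e t) w + t) := if_neg h
      have hQx : 2 ^ (Sh e (ε e t) w + 1) ∣ Q := hQ _ hx
      obtain ⟨hv, hle⟩ := inr_mem_Dom.1 (hX _ hx)
      rw [hf]
      by_cases h0 : t = 0
      · subst h0
        rw [ft_shift_zero hQx (hε e 0 h), ft_zero]
        refine Or.inr (Or.inr (Or.inl ⟨e.1, ε e 0, h, hε e 0 h, fun hl => ?_, rfl, rfl⟩))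
        refine if_pos ⟨hl, ?_⟩
        by_contra h'
        push Not at h'
        have h2 := (hen _ hl h).2.2.1
        rw [← h'.1, Nat.le_zero.1 h'.2] at h2
        exact h2 hx
      rcases hle.eq_or_lt with rfl | hlt
      · rw [ft_shift_end hQx, ft_end]
        by_cases h1 : ε e (2 ^ pE e) = e
        · rw [if_pos h1]
          refine Or.inr (Or.inr (Or.inr ⟨e.2, ?_, rfl, rfl⟩))
          by_cases h2 : Sum.inl e.1 ∈ X ∧ (e ≠ en e.1 ∨ 2 ^ pE e < b e.1)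
          · simp only [ε, if_pos h2] at h1
            have h3 := (hen _ h2.1 h).2.2.2
            rw [h1] at h3
            exact h3 (h2.2.resolve_left fun h => h h1.symm)
          · simp only [ε, if_neg h2] at h1
            have h3 : e.1 = e.2 := congrArg Prod.snd h1
            exact absurd hv.1 (by omega)
        · rw [if_neg h1]
          exact Or.inl ⟨rfl, Or.inr ⟨rfl, fun h => by simp at h⟩⟩
      · rw [ft_shift hQx h0 hlt]
        exact Or.inl ⟨rfl, hsame e t hx fun h => absurd h h0⟩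
  have hpos : ∀ x ∈ X, ∀ y ∈ X, top x ∉ J ρ X → top y ∉ J ρ X → ∀ δ ≤ 1,
      Q + 2 ^ lev x + pos x + δ = Q + 2 ^ lev y + pos y →
        (δ = 0 ∧ x = y) ∨ (δ = 1 ∧ Succ x y) := by
    intro x hx y hy jx jy δ hδ h
    have h1 := hA x hx
    have h2 := hA y hy
    obtain ⟨h3, h4⟩ := pow_add_inj (u := pos x + δ) (u' := pos y) (a := lev x) (b := lev y)
      (by omega) (by omega) (by omega)
    rcases x with k | ⟨e, t⟩ <;> rcases y with k' | ⟨e', t'⟩
    · have h5 : en k = en k' := (Si_inj h3).1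
      have h6 : k = k' := by rw [← (hen k hx jx).2.1, h5, (hen k' hy jy).2.1]
      simp only [pos] at h4
      exact Or.inl ⟨by omega, by rw [h6]⟩
    · exact absurd h3 (Si_ne_Sh _ _ _ _ _)
    · exact absurd h3.symm (Si_ne_Sh _ _ _ _ _)
    · obtain rfl : e = e' := (Sh_inj h3).1
      simp only [pos] at h4
      rcases Nat.le_one_iff_eq_zero_or_eq_one.1 hδ with rfl | rfl
      · exact Or.inl ⟨rfl, by rw [← h4]; rfl⟩
      · exact Or.inr ⟨rfl, succ_inr.2 ⟨rfl, h4⟩⟩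
  have htop : ∀ x y, Succ x y → top x = top y := by
    rintro _ _ ⟨e, t, rfl, rfl⟩; rfl
  have hft : ∀ x, top x ∉ J ρ X → top (f x) ∉ J ρ X := fun x h => by
    simp only [f, if_neg h]; exact hB
  refine ⟨f, fun x hx => ?_, fun x hx => (hCl x hx).fst, fun x hx y hy =>
    ⟨?_, ?_, (hCl x hx).lk_iff (hCl y hy)⟩⟩
  · by_cases h : top x ∈ J ρ X
    · simp only [f, if_pos h]
      have h1 := hJ h (top x) ⟨le_rfl, le_rfl⟩
      rcases x with k | ⟨e, t⟩
      · exact h1.1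
      · exact h1.2 e t rfl (hX _ hx)
    · simp only [f, if_neg h]
      have h1 := hA x hx
      have h2 : 2 ^ (lev x + 1) ≤ 2 ^ N0 := Nat.pow_le_pow_right (by norm_num) (hlev x hx)
      rw [pow_succ] at h2
      have := hrun (Q + 2 ^ lev x + pos x - s) (by omega)
      rwa [show s + (Q + 2 ^ lev x + pos x - s) = Q + 2 ^ lev x + pos x by omega] at this
  · intro h
    by_cases jx : top x ∈ J ρ X <;> by_cases jy : top y ∈ J ρ X
    · simpa only [f, if_pos jx, if_pos jy] using h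
    · have := hft y jy
      rw [← h] at this
      simp only [f, if_pos jx] at this
      exact absurd jx this
    · have := hft x jx
      rw [h] at this
      simp only [f, if_pos jy] at this
      exact absurd jy this
    · simp only [f, if_neg jx, if_neg jy, Sum.inr.injEq, Prod.mk.injEq, true_and] at h
      rcases hpos x hx y hy jx jy 0 (by norm_num) h with h | h
      · exact h.2
      · exact absurd h.1 (by norm_num)
  · by_cases jx : top x ∈ J ρ X <;> by_cases jy : top y ∈ J ρ X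
    · simp only [f, if_pos jx, if_pos jy]
    · refine iff_of_false (fun h => ?_) fun h => jy (htop _ _ h ▸ jx)
      have := hft y jy
      rw [← htop _ _ h] at this
      simp only [f, if_pos jx] at this
      exact absurd jx this
    · refine iff_of_false (fun h => ?_) fun h => jx (htop _ _ h ▸ jy)
      have := hft x jx
      rw [htop _ _ h] at this
      simp only [f, if_pos jy] at this
      exact absurd jy this
    · simp only [f, if_neg jx, if_neg jy, succ_inr, true_and]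
      constructor
      · intro h
        rcases hpos x hx y hy jx jy 1 le_rfl h with h | h
        · exact absurd h.1 (by norm_num)
        · exact h.2
      · rintro ⟨e, t, rfl, rfl⟩
        have h1 : ε e t = ε e (t + 1) := by
          refine if_congr (and_congr_right fun hl => ?_) rfl rfl
          by_cases h2 : e = en e.1
          · have h3 := (hen _ hl jx).2.2.1
            have h4 : b e.1 ≠ t + 1 := fun h => h3 (by rw [← h2, h]; exact hy)
            exact or_congr_right (by omega)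
          · exact iff_of_true (Or.inl h2) (Or.inl h2)
        simp only [lev, Sum.elim_inr, pos, h1]
        omega

end Pool.Agent.P.MP_2feb70_lc.Gr
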