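import Mathlib

namespace Pool.Agent.P.MP_2feb70_lc.Gr

/-- `S` maps into `T` keeping every relation of the family `R` in both directions. -/
def EmbR {α ι : Type} (R : ι → α → α → Prop) (S T : Finset α) : Prop :=
  ∃ f : α → α, (∀ x ∈ S, f x ∈ T) ∧ ∀ i, ∀ x ∈ S, ∀ y ∈ S, (R i (f x) (f y) ↔ R i x y)

instance EmbR.isPreorder {α ι : Type} (R : ι → α → α → Prop) : IsPreorder _ (EmbR R) where
  refl := fun _ => ⟨id, fun _ h => h, fun _ _ _ _ _ => Iff.rfl⟩
  trans := by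
    rintro S T U ⟨f, f1, f2⟩ ⟨g, g1, g2⟩
    exact ⟨g ∘ f, fun x hx => g1 _ (f1 x hx), fun i x hx y hy =>
      (g2 i _ (f1 x hx) _ (f1 y hy)).trans (f2 i x hx y hy)⟩

theorem wq_base {α ι : Type} [Finite α] (R : ι → α → α → Prop) : WellQuasiOrdered (EmbR R) := by
  have : Fintype α := Fintype.ofFinite α
  exact Finite.wellQuasiOrdered _

/-- One more level of keys. -/
def stepR {κ α ι : Type} [LinearOrder κ] (R : ι → α → α → Prop) :
    Option ι → κ × α → κ × α → Prop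
  | none, p, q => p.1 ≤ q.1
  | some i, p, q => p.1 = q.1 ∧ R i p.2 q.2

theorem exists_mono_of_sublistForall₂ {κ β : Type} [LinearOrder κ] {r : β → β → Prop}
    (a b : κ → β) : ∀ (l₁ l₂ : List κ), l₁.SortedLT → l₂.SortedLT →
      List.SublistForall₂ r (l₁.map a) (l₂.map b) →
      ∃ g : κ → κ, StrictMonoOn g {x | x ∈ l₁} ∧ ∀ x ∈ l₁, g x ∈ l₂ ∧ r (a x) (b (g x)) := by
  classical
  intro l₁ l₂
  induction l₂ generalizing l₁ with
  | nil =>
    intro _ _ h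
    cases l₁ with
    | nil => exact ⟨id, by simp [StrictMonoOn], by simp⟩
    | cons x l => cases h
  | cons y l₂ ih =>
    intro h₁ h₂ h
    have h₂' : l₂.SortedLT := by
      rw [List.sortedLT_iff_pairwise] at h₂ ⊢
      exact (List.pairwise_cons.1 h₂).2
    have hy : ∀ z ∈ l₂, y < z := by
      rw [List.sortedLT_iff_pairwise] at h₂
      exact (List.pairwise_cons.1 h₂).1
    cases l₁ with
    | nil => exact ⟨id, by simp [StrictMonoOn], by simp⟩
    | cons x l =>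
      have h₁' : l.SortedLT := by
        rw [List.sortedLT_iff_pairwise] at h₁ ⊢
        exact (List.pairwise_cons.1 h₁).2
      have hx : ∀ z ∈ l, x < z := by
        rw [List.sortedLT_iff_pairwise] at h₁
        exact (List.pairwise_cons.1 h₁).1
      simp only [List.map_cons] at h
      rcases h with _ | ⟨hr, h⟩ | ⟨h⟩
      · obtain ⟨g, g1, g2⟩ := ih l h₁' h₂' h
        have hu : ∀ z ∈ l, Function.update g x y z = g z := fun z hz =>
          Function.update_of_ne (hx z hz).ne' _ _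
        refine ⟨Function.update g x y, ?_, ?_⟩
        · intro u hu' w hw huw
          rcases List.mem_cons.1 hu' with rfl | hu1 <;> rcases List.mem_cons.1 hw with rfl | hw1
          · exact absurd huw (lt_irrefl _)
          · rw [Function.update_self, hu w hw1]; exact hy _ (g2 w hw1).1
          · exact absurd huw (hx u hu1).not_gt
          · rw [hu u hu1, hu w hw1]; exact g1 hu1 hw1 huw
        · intro z hz
          rcases List.mem_cons.1 hz with rfl | hz1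
          · rw [Function.update_self]; exact ⟨List.mem_cons_self, hr⟩
          · rw [hu z hz1]; exact ⟨List.mem_cons_of_mem _ (g2 z hz1).1, (g2 z hz1).2⟩
      · obtain ⟨g, g1, g2⟩ := ih (x :: l) h₁ h₂' h
        exact ⟨g, g1, fun z hz => ⟨List.mem_cons_of_mem _ (g2 z hz).1, (g2 z hz).2⟩⟩

theorem wq_step {κ α ι : Type} [LinearOrder κ] {R : ι → α → α → Prop}
    (h : WellQuasiOrdered (EmbR R)) : WellQuasiOrdered (EmbR (stepR (κ := κ) R)) := by
  classical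
  intro X
  have hH := Set.PartiallyWellOrderedOn.partiallyWellOrderedOn_sublistForall₂ (EmbR R)
    (s := Set.univ) (Set.partiallyWellOrderedOn_of_wellQuasiOrdered h _)
  let fib : ℕ → κ → Finset α := fun n k => ((X n).filter fun p => p.1 = k).image Prod.snd
  let ks : ℕ → List κ := fun n => ((X n).image Prod.fst).sort (· ≤ ·)
  obtain ⟨n, m, hnm, hs⟩ := hH fun n => ⟨(ks n).map (fib n), fun _ _ => Set.mem_univ _⟩
  obtain ⟨g, g1, g2⟩ := exists_mono_of_sublistForall₂ (fib n) (fib m) (ks n) (ks m)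
    (Finset.sortedLT_sort _) (Finset.sortedLT_sort _) hs
  have hk : ∀ p ∈ X n, p.1 ∈ ks n := fun p hp => by
    simp only [ks, Finset.mem_sort]; exact Finset.mem_image_of_mem _ hp
  have hf : ∀ k, ∃ f : α → α, k ∈ ks n → (∀ x ∈ fib n k, f x ∈ fib m (g k)) ∧
      ∀ i, ∀ x ∈ fib n k, ∀ y ∈ fib n k, (R i (f x) (f y) ↔ R i x y) := by
    intro k
    by_cases hk' : k ∈ ks n
    · obtain ⟨f, hf⟩ := (g2 k hk').2
      exact ⟨f, fun _ => hf⟩
    · exact ⟨id, fun h => absurd h hk'⟩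
  choose f hf using hf
  have hfib : ∀ p ∈ X n, p.2 ∈ fib n p.1 := fun p hp =>
    Finset.mem_image_of_mem _ (Finset.mem_filter.2 ⟨hp, rfl⟩)
  refine ⟨n, m, hnm, fun p => (g p.1, f p.1 p.2), ?_, ?_⟩
  · intro p hp
    obtain ⟨q, hq, hq2⟩ := Finset.mem_image.1 ((hf _ (hk p hp)).1 _ (hfib p hp))
    obtain ⟨hq, hq1⟩ := Finset.mem_filter.1 hq
    change (g p.1, f p.1 p.2) ∈ X m
    rwa [← hq1, ← hq2]
  · rintro (_ | i) p hp q hq
    · exact g1.le_iff_le (hk p hp) (hk q hq)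
    · change g p.1 = g q.1 ∧ R i (f p.1 p.2) (f q.1 q.2) ↔ p.1 = q.1 ∧ R i p.2 q.2
      rw [g1.injOn.eq_iff (hk p hp) (hk q hq)]
      refine and_congr_right fun hpq => ?_
      have hq' := hfib q hq
      rw [← hpq] at hq' ⊢
      exact (hf _ (hk p hp)).2 i _ (hfib p hp) _ hq'

/-- Nested Higman, depth four over a finite label set. -/
theorem nested {Λ : Type} [Finite Λ] (X : ℕ → Finset (ℕ × ℕ∞ × ℕ × ℕ × Λ)) :
    ∃ n m, n < m ∧ ∃ f : ℕ × ℕ∞ × ℕ × ℕ × Λ → ℕ × ℕ∞ × ℕ × ℕ × Λ, (∀ x ∈ X n, f x ∈ X m) ∧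
      (∀ x ∈ X n, (f x).2.2.2.2 = x.2.2.2.2) ∧
      ∀ x ∈ X n, ∀ y ∈ X n,
        ((f x).1 = (f y).1 ∧ (f x).2.1 ≤ (f y).2.1 ↔ x.1 = y.1 ∧ x.2.1 ≤ y.2.1) ∧
        ((f x).1 = (f y).1 ∧ (f x).2.1 = (f y).2.1 ∧ (f x).2.2.1 = (f y).2.2.1 ↔
          x.1 = y.1 ∧ x.2.1 = y.2.1 ∧ x.2.2.1 = y.2.2.1) ∧
        ((f x).1 = (f y).1 ∧ (f x).2.1 = (f y).2.1 ∧ (f x).2.2.1 = (f y).2.2.1 ∧
            (f x).2.2.2.1 = (f y).2.2.2.1 ↔
          x.1 = y.1 ∧ x.2.1 = y.2.1 ∧ x.2.2.1 = y.2.2.1 ∧ x.2.2.2.1 = y.2.2.2.1) := by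
  let R : Option Λ → Λ → Λ → Prop := fun i x _ => ∀ j ∈ i, x = j
  obtain ⟨n, m, hnm, f, f1, f2⟩ :=
    wq_step (κ := ℕ) (wq_step (κ := ℕ∞) (wq_step (κ := ℕ) (wq_step (κ := ℕ) (wq_base R)))) X
  refine ⟨n, m, hnm, f, f1, fun x hx => ?_, fun x hx y hy => ⟨?_, ?_, ?_⟩⟩
  · have := (f2 (some (some (some (some (some x.2.2.2.2))))) x hx x hx).2
      (by simp [stepR, R])
    simpa [stepR, R] using this
  · simpa [stepR] using f2 (some none) x hx y hy
  · have h1 := f2 (some (some none)) x hx y hy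
    have h2 := f2 (some (some none)) y hy x hx
    simp only [stepR] at h1 h2
    constructor
    · rintro ⟨a, b, c⟩
      obtain ⟨a1, b1, c1⟩ := h1.1 ⟨a, b, c.le⟩
      exact ⟨a1, b1, le_antisymm c1 (h2.1 ⟨a.symm, b.symm, c.ge⟩).2.2⟩
    · rintro ⟨a, b, c⟩
      obtain ⟨a1, b1, c1⟩ := h1.2 ⟨a, b, c.le⟩
      exact ⟨a1, b1, le_antisymm c1 (h2.2 ⟨a.symm, b.symm, c.ge⟩).2.2⟩
  · simpa [stepR, R] using f2 (some (some (some (some none)))) x hx y hy

end Pool.Agent.P.MP_2feb70_lc.Gr
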