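import Mathlib
import Pool.Agent.P.MP_2feb70_lc.Gr.Str
import Pool.Agent.P.MP_2feb70_lc.Gr.TH

namespace Pool.Agent.P.MP_2feb70_lc.Gr

variable {ρ : ℕ → Ordinal.{1}}

open Classical in
/-- The start of the run of `X` through position `t` of track `e`. -/
noncomputable def st (X : Finset Pt) (e : Edge) : ℕ → ℕ
  | 0 => 0
  | t + 1 => if Sum.inr (e, t) ∈ X then st X e t else t + 1

theorem st_spec (X : Finset Pt) (e : Edge) (t : ℕ) :
    st X e t ≤ t ∧ ∀ u, st X e t ≤ u → u < t → Sum.inr (e, u) ∈ X := by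
  induction t with
  | zero => exact ⟨le_rfl, fun u _ h => absurd h (Nat.not_lt_zero _)⟩
  | succ t ih =>
    by_cases h : Sum.inr (e, t) ∈ X
    · rw [st, if_pos h]
      refine ⟨by omega, fun u h1 h2 => ?_⟩
      rcases (Nat.lt_succ_iff.1 h2).eq_or_lt with rfl | h3
      · exact h
      · exact ih.2 u h1 h3
    · rw [st, if_neg h]
      exact ⟨le_rfl, fun u h1 h2 => absurd h2 h1.not_gt⟩

theorem lt_st {X : Finset Pt} {c : ℕ} (hc : ∀ e s, ¬ ∀ t ≤ c, Sum.inr (e, s + t) ∈ X)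
    {e : Edge} {t : ℕ} (h : Sum.inr (e, t) ∈ X) : t < st X e t + c := by
  by_contra h1
  refine hc e (st X e t) fun u hu => ?_
  rcases (show st X e t + u ≤ t by omega).eq_or_lt with h2 | h2
  · rwa [h2]
  · exact (st_spec X e t).2 _ (by omega) h2

/-- The first point of the component. -/
noncomputable def base (X : Finset Pt) : Pt → Pt
  | .inl k => .inl k
  | .inr (e, t) => .inr (e, st X e t)

/-- The offset inside the component. -/
noncomputable def off (X : Finset Pt) : Pt → ℕ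
  | .inl _ => 0
  | .inr (e, t) => t - st X e t

/-- The only possibly large site near a run start. -/
def sq (c : ℕ) : Pt → Pt
  | .inl k => .inl k
  | .inr (e, s) => .inr (e, (s + c) / 2 ^ (c + 1) * 2 ^ (c + 1))

theorem eq_of_base {X : Finset Pt} {x y : Pt} (h : base X x = base X y) (h' : off X x = off X y) :
    x = y := by
  rcases x with k | ⟨e, t⟩ <;> rcases y with k' | ⟨e', t'⟩
  · exact h
  · cases h
  · cases h
  · simp only [base, Sum.inr.injEq, Prod.mk.injEq] at h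
    obtain ⟨rfl, h⟩ := h
    have h1 := (st_spec X e t).1
    have h2 := (st_spec X e t').1
    simp only [off] at h'
    rw [show t = t' by omega]

theorem succ_iff {X : Finset Pt} {x y : Pt} (hx : x ∈ X) :
    Succ x y ↔ base X x = base X y ∧ off X x + 1 = off X y := by
  constructor
  · rintro ⟨e, t, rfl, rfl⟩
    have h1 := (st_spec X e t).1
    simp only [base, off, st, if_pos hx, true_and]
    omega
  · rintro ⟨h, h'⟩
    rcases x with k | ⟨e, t⟩ <;> rcases y with k' | ⟨e', t'⟩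
    · simp [off] at h'
    · cases h
    · cases h
    · simp only [base, Sum.inr.injEq, Prod.mk.injEq] at h
      obtain ⟨rfl, h⟩ := h
      have h1 := (st_spec X e t).1
      simp only [off] at h'
      exact succ_inr.2 ⟨rfl, by omega⟩

theorem q_eq {M x u : ℕ} (h : M ∣ u) (h1 : u ≤ x) (h2 : x < u + M) : x / M * M = u := by
  obtain ⟨k, rfl⟩ := h
  have : x / M = k := Nat.div_eq_of_lt_le (by rw [mul_comm]; exact h1)
    (by rw [add_mul, mul_comm]; omega)
  rw [this, mul_comm]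

/-- How the feature `b` of a point relates to the name `a` of its site. -/
def Near (B : ℕ) (b : Fin 4 × Nm) (a : Nm) : Prop :=
  b.1 = 0 ∨ b.2 = a ∨ (b.2.1.1 < B ∧ (b.1 = 3 ∨ (cE b.2.1 < B ∧ b.2.2 < B)) ∧
    (b.2.2 = ⊤ ∨ b.2.2 < B ∨ (a.1.1 < B ∧ b.2.2 = a.2)))

theorem near_site {c s t : ℕ} (e : Edge) (h1 : s ≤ t) (h2 : t ≤ s + c) :
    Near (c + 1) (ft ρ (.inr (e, t))) (ft ρ (sq c (.inr (e, s)))).2 := by
  have hc : c < 2 ^ c := Nat.lt_two_pow_self
  by_cases hM : 2 ^ (c + 1) ∣ t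
  · refine Or.inr (Or.inl ?_)
    rw [sq, q_eq hM h2 (by rw [pow_succ]; omega)]
  have h0 : t ≠ 0 := fun h => hM (h ▸ dvd_zero _)
  have hv : v t < c + 1 := by
    by_contra h
    exact hM ((le_v_iff h0).1 (not_lt.1 h))
  rcases ft_cases (ρ := ρ) e t with h | ⟨h, -⟩ | ⟨h, h'⟩ | ⟨ε, w, h, -, h'⟩ |
    ⟨e', ε, w, h, -, h'⟩ | ⟨e', ε, w, h, h3, h'⟩
  · exact Or.inl h
  · exact absurd h h0
  · rw [h']
    rw [h, v_pow] at hv
    have := snd_le_cE e
    have := cE_lt_pE e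
    exact Or.inr (Or.inr ⟨show e.2 < c + 1 by omega, Or.inl rfl, Or.inl rfl⟩)
  · rw [h']
    have := Si_ge ε w
    have := fst_le_cE ε
    have hw : (w : ℕ∞) < (c + 1 : ℕ) := by exact_mod_cast (by omega : w < c + 1)
    exact Or.inr (Or.inr ⟨show ε.1 < c + 1 by omega, Or.inr ⟨show cE ε < c + 1 by omega, hw⟩,
      Or.inr (Or.inl hw)⟩)
  · rw [h']
    have := Sh_ge e' ε w
    have := fst_le_cE ε
    have hw : (w : ℕ∞) < (c + 1 : ℕ) := by exact_mod_cast (by omega : w < c + 1)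
    exact Or.inr (Or.inr ⟨show ε.1 < c + 1 by omega, Or.inr ⟨show cE ε < c + 1 by omega, hw⟩,
      Or.inr (Or.inl hw)⟩)
  · rw [h']
    have := snd_le_cE e'
    have := fst_le_cE e'
    have := cE_lt_pE e'
    refine Or.inr (Or.inr ⟨show e'.2 < c + 1 by omega, Or.inl rfl, ?_⟩)
    by_cases h4 : ε = e'
    swap
    · exact Or.inl (if_neg h4)
    subst h4
    simp only [if_true]
    by_cases h5 : w < c + 1
    · exact Or.inr (Or.inl (by exact_mod_cast h5))
    have h6 := Sh_ge ε ε w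
    have h7 : t - 2 ^ pE ε ≠ 0 := fun h => by rw [h, v_zero] at h3; omega
    have h8 : 2 ^ (c + 1) ∣ t - 2 ^ pE ε := (le_v_iff h7).1 (by omega)
    have h9 : 2 ^ pE ε ≤ 2 ^ c := Nat.pow_le_pow_right (by norm_num) (by omega)
    have h10 : t - 2 ^ pE ε ≤ s + c := (Nat.sub_le _ _).trans h2
    have h11 : s + c < t - 2 ^ pE ε + 2 ^ (c + 1) := by
      rw [pow_succ]
      generalize 2 ^ pE ε = y at h9
      omega
    rw [sq, q_eq h8 h10 h11,
      ft_mid h7 fun h => pE_ne_Sh _ _ _ _ (by rw [h, v_pow] at h3; exact h3), h3, G_Sh rfl]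
    exact Or.inr (Or.inr ⟨show ε.1 < c + 1 by omega, rfl⟩)

/-- Equal truncations. -/
def Same (B : ℕ) (b b' : Fin 4 × Nm) : Prop :=
  b.1 = b'.1 ∧ min (cE b.2.1) B = min (cE b'.2.1) B ∧ min b.2.1.1 B = min b'.2.1.1 B ∧
    min b.2.2.toNat B = min b'.2.2.toNat B ∧ (b.2.2 = ⊤ ↔ b'.2.2 = ⊤)

theorem Same.symm {B : ℕ} {b b' : Fin 4 × Nm} (h : Same B b b') : Same B b' b :=
  ⟨h.1.symm, h.2.1.symm, h.2.2.1.symm, h.2.2.2.1.symm, h.2.2.2.2.symm⟩

theorem Same.time {B : ℕ} {b b' : Fin 4 × Nm} (h : Same B b b') :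
    b.2.2 = b'.2.2 ∨ ((B : ℕ∞) ≤ b.2.2 ∧ b.2.2 ≠ ⊤ ∧ (B : ℕ∞) ≤ b'.2.2 ∧ b'.2.2 ≠ ⊤) := by
  obtain ⟨-, -, -, h1, h2⟩ := h
  generalize b.2.2 = τ at h1 h2
  generalize b'.2.2 = τ' at h1 h2
  induction τ using ENat.recTopCoe with
  | top => exact Or.inl (h2.1 rfl).symm
  | coe a =>
    induction τ' using ENat.recTopCoe with
    | top => exact Or.inl (h2.2 rfl)
    | coe a' =>
      simp only [ENat.toNat_natCast] at h1
      simp only [Nat.cast_inj, Nat.cast_le, ne_eq, ENat.natCast_ne_top, not_false_eq_true,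
        and_true, true_and]
      omega

/-- The group key. -/
def gr (B : ℕ) (a : Nm) : ℕ := if a.1.1 < B then 0 else a.1.1 + 1

theorem lk_transfer {B : ℕ} {b c b' c' : Fin 4 × Nm} {a d a' d' : Nm}
    (nb : Near B b a) (nc : Near B c d) (nb' : Near B b' a') (nc' : Near B c' d')
    (sb : Same B b b') (sc : Same B c c')
    (k0 : gr B a = gr B d → gr B a' = gr B d')
    (k1 : gr B a = gr B d → a.2 ≤ d.2 → a'.2 ≤ d'.2)
    (k2 : a = d → a' = d') (h : lk b c) : lk b' c' := by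
  obtain ⟨h1, ⟨h2, h3⟩ | ⟨h2, h3, h4⟩⟩ := h
  · refine ⟨sb.1 ▸ h1, Or.inl ⟨sc.1 ▸ h2, ?_⟩⟩
    have small : ∀ {b b' : Fin 4 × Nm}, Same B b b' → cE b.2.1 < B ∧ b.2.2 < B → b'.2 = b.2 := by
      intro b b' s h
      refine Prod.ext (cE_inj ?_) ?_
      · have := s.2.1
        omega
      · exact (s.time.resolve_right fun h' => h.2.not_ge h'.1).symm
    have big : ∀ {b : Fin 4 × Nm} {a : Nm}, Near B b a → (b.1 = 1 ∨ b.1 = 2) →
        ¬ (cE b.2.1 < B ∧ b.2.2 < B) → b.2 = a := by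
      intro b a n hm hs
      rcases n with n | n | ⟨-, n | n, -⟩
      · rw [n] at hm; simp at hm
      · exact n
      · rw [n] at hm; simp at hm
      · exact absurd n hs
    by_cases hs : cE b.2.1 < B ∧ b.2.2 < B
    · rw [small sb hs, small sc (h3 ▸ hs), h3]
    · have hs' : ¬ (cE c.2.1 < B ∧ c.2.2 < B) := h3 ▸ hs
      rw [big nb' (Or.inl (sb.1 ▸ h1)) fun h => hs (small sb.symm h ▸ h),
        big nc' (Or.inr (sc.1 ▸ h2)) fun h => hs' (small sc.symm h ▸ h)]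
      exact k2 (by rw [← big nb (Or.inl h1) hs, ← big nc (Or.inr h2) hs', h3])
  · have big : ∀ {b : Fin 4 × Nm} {a : Nm}, Near B b a → (b.1 = 1 ∨ b.1 = 3) →
        ¬ b.2.1.1 < B → b.2 = a := by
      intro b a n hm hs
      rcases n with n | n | ⟨n, -⟩
      · rw [n] at hm; simp at hm
      · exact n
      · exact absurd n hs
    have med : ∀ {b : Fin 4 × Nm} {a : Nm}, Near B b a → (b.1 = 1 ∨ b.1 = 3) →
        (B : ℕ∞) ≤ b.2.2 → b.2.2 ≠ ⊤ → b.2.2 = a.2 ∧ gr B b.2 = gr B a := by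
      intro b a n hm h1 h2
      rcases n with n | n | ⟨n, -, n' | n' | n'⟩
      · rw [n] at hm; simp at hm
      · rw [n]; exact ⟨rfl, rfl⟩
      · exact absurd n' h2
      · exact absurd h1 n'.not_ge
      · exact ⟨n'.2, by rw [gr, gr, if_pos n, if_pos n'.1]⟩
    have h1' : b'.1 = 1 := sb.1 ▸ h1
    have h2' : c'.1 = 3 := sc.1 ▸ h2
    have e1 := sb.2.2.1
    have e2 := sc.2.2.1
    refine ⟨h1', Or.inr ⟨h2', ?_, ?_⟩⟩
    · by_cases hs : b.2.1.1 < B
      · omega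
      · have hb' : ¬ b'.2.1.1 < B := by omega
        have hc' : ¬ c'.2.1.1 < B := by omega
        have := k0 (by rw [← big nb (Or.inl h1) hs, ← big nc (Or.inr h2) (h3 ▸ hs), gr, gr, h3])
        rw [← big nb' (Or.inl h1') hb', ← big nc' (Or.inr h2') hc', gr, gr, if_neg hb',
          if_neg hc'] at this
        omega
    · by_cases t1 : c.2.2 = ⊤
      · rw [sc.2.2.2.2.1 t1]; exact le_top
      by_cases t2 : b.2.2 < B
      · rw [← sb.time.resolve_right fun h => t2.not_ge h.1]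
        rcases sc.time with h | h
        · exact h ▸ h4
        · exact t2.le.trans h.2.2.1
      have t3 : (B : ℕ∞) ≤ b.2.2 := not_lt.1 t2
      have t4 : b.2.2 ≠ ⊤ := fun h => t1 (top_le_iff.1 (h ▸ h4))
      have t5 : (B : ℕ∞) ≤ b'.2.2 ∧ b'.2.2 ≠ ⊤ := by
        rcases sb.time with h | h
        · exact h ▸ ⟨t3, t4⟩
        · exact h.2.2
      have t6 : (B : ℕ∞) ≤ c'.2.2 ∧ c'.2.2 ≠ ⊤ := by
        rcases sc.time with h | h
        · exact h ▸ ⟨t3.trans h4, t1⟩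
        · exact h.2.2
      obtain ⟨m1, m2⟩ := med nb (Or.inl h1) t3 t4
      obtain ⟨m3, m4⟩ := med nc (Or.inr h2) (t3.trans h4) t1
      rw [(med nb' (Or.inl h1') t5.1 t5.2).1, (med nc' (Or.inr h2') t6.1 t6.2).1]
      exact k1 (by rw [← m2, ← m4, gr, gr, h3]) (m1 ▸ m3 ▸ h4)

/-- Truncation at `B`. -/
def cut (B x : ℕ) : Fin (B + 1) := ⟨min x B, by omega⟩

theorem short (X : ℕ → Finset Pt) (c : ℕ)
    (hc : ∀ n e s, ¬ ∀ t ≤ c, Sum.inr (e, s + t) ∈ X n) :
    ∃ n m, n < m ∧ Emb ρ (X n) (X m) := by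
  classical
  let A : Pt → Nm := fun z => (ft ρ (sq c z)).2
  let key : ℕ → Pt → ℕ × ℕ∞ × ℕ × ℕ ×
      (Fin (c + 2) × Fin 4 × Fin (c + 2) × Fin (c + 2) × Fin (c + 2) × Prop) := fun n x =>
    (gr (c + 1) (A (base (X n) x)), (A (base (X n) x)).2, cE (A (base (X n) x)).1,
      Encodable.encode (base (X n) x), cut (c + 1) (off (X n) x), (ft ρ x).1,
      cut (c + 1) (cE (ft ρ x).2.1), cut (c + 1) (ft ρ x).2.1.1, cut (c + 1) (ft ρ x).2.2.toNat,
      (ft ρ x).2.2 = ⊤)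
  obtain ⟨n, m, hnm, f, f1, f2, f3⟩ := nested fun n => (X n).image (key n)
  have h1 : ∀ x, ∃ y, x ∈ X n → y ∈ X m ∧ key m y = f (key n x) := by
    intro x
    by_cases hx : x ∈ X n
    · obtain ⟨y, hy, h⟩ := Finset.mem_image.1 (f1 _ (Finset.mem_image_of_mem _ hx))
      exact ⟨y, fun _ => ⟨hy, h⟩⟩
    · exact ⟨x, fun h => absurd h hx⟩
  choose g hg using h1
  have hoff : ∀ k, ∀ x ∈ X k, off (X k) x < c + 1 := by
    rintro k (j | ⟨e, t⟩) hx
    · exact Nat.succ_pos _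
    · have := lt_st (hc k) hx
      simp only [off]
      omega
  have hnear : ∀ k, ∀ x ∈ X k, Near (c + 1) (ft ρ x) (A (base (X k) x)) := by
    rintro k (j | ⟨e, t⟩) hx
    · exact Or.inr (Or.inl rfl)
    · exact near_site e (st_spec _ _ _).1 (lt_st (hc k) hx).le
  have hlab : ∀ x ∈ X n, off (X m) (g x) = off (X n) x ∧ Same (c + 1) (ft ρ (g x)) (ft ρ x) := by
    intro x hx
    have h := f2 _ (Finset.mem_image_of_mem _ hx)
    rw [← (hg x hx).2] at h
    simp only [key, Prod.mk.injEq, cut, Fin.mk.injEq, eq_iff_iff] at h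
    have a1 := hoff n x hx
    have a2 := hoff m _ (hg x hx).1
    exact ⟨by omega, h.2⟩
  have hkey : ∀ x ∈ X n, ∀ y ∈ X n,
      (gr (c + 1) (A (base (X m) (g x))) = gr (c + 1) (A (base (X m) (g y))) ∧
          (A (base (X m) (g x))).2 ≤ (A (base (X m) (g y))).2 ↔
        gr (c + 1) (A (base (X n) x)) = gr (c + 1) (A (base (X n) y)) ∧
          (A (base (X n) x)).2 ≤ (A (base (X n) y)).2) ∧
      (A (base (X m) (g x)) = A (base (X m) (g y)) ↔ A (base (X n) x) = A (base (X n) y)) ∧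
      (base (X m) (g x) = base (X m) (g y) ↔ base (X n) x = base (X n) y) := by
    intro x hx y hy
    have h := f3 _ (Finset.mem_image_of_mem _ hx) _ (Finset.mem_image_of_mem _ hy)
    rw [← (hg x hx).2, ← (hg y hy).2] at h
    simp only [key, Encodable.encode_inj] at h
    have e1 : ∀ a d : Nm, (gr (c + 1) a = gr (c + 1) d ∧ a.2 = d.2 ∧ cE a.1 = cE d.1) ↔ a = d :=
      fun a d => ⟨fun h => Prod.ext (cE_inj h.2.2) h.2.1, by rintro rfl; exact ⟨rfl, rfl, rfl⟩⟩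
    have e2 : ∀ z u : Pt, (gr (c + 1) (A z) = gr (c + 1) (A u) ∧ (A z).2 = (A u).2 ∧
        cE (A z).1 = cE (A u).1 ∧ z = u) ↔ z = u :=
      fun z u => ⟨fun h => h.2.2.2, by rintro rfl; exact ⟨rfl, rfl, rfl, rfl⟩⟩
    rw [e1, e1, e2, e2] at h
    exact h
  refine ⟨n, m, hnm, g, fun x hx => (hg x hx).1, fun x hx => (hlab x hx).2.1,
    fun x hx y hy => ⟨fun h => ?_, ?_, ?_, ?_⟩⟩
  · refine eq_of_base ((hkey x hx y hy).2.2.1 (by rw [h])) ?_
    rw [← (hlab x hx).1, ← (hlab y hy).1, h]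
  · rw [succ_iff (hg x hx).1, succ_iff hx, (hkey x hx y hy).2.2, (hlab x hx).1, (hlab y hy).1]
  · refine lk_transfer (hnear m _ (hg x hx).1) (hnear m _ (hg y hy).1) (hnear n x hx)
      (hnear n y hy) (hlab x hx).2 (hlab y hy).2 (fun h => ?_)
      (fun h h' => ((hkey x hx y hy).1.1 ⟨h, h'⟩).2) (hkey x hx y hy).2.1.1
    rcases le_total (A (base (X m) (g x))).2 (A (base (X m) (g y))).2 with h' | h'
    · exact ((hkey x hx y hy).1.1 ⟨h, h'⟩).1
    · exact ((hkey y hy x hx).1.1 ⟨h.symm, h'⟩).1.symm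
  · refine lk_transfer (hnear n x hx) (hnear n y hy) (hnear m _ (hg x hx).1)
      (hnear m _ (hg y hy).1) (hlab x hx).2.symm (hlab y hy).2.symm (fun h => ?_)
      (fun h h' => ((hkey x hx y hy).1.2 ⟨h, h'⟩).2) (hkey x hx y hy).2.1.2
    rcases le_total (A (base (X n) x)).2 (A (base (X n) y)).2 with h' | h'
    · exact ((hkey x hx y hy).1.2 ⟨h, h'⟩).1
    · exact ((hkey y hy x hx).1.2 ⟨h.symm, h'⟩).1.symm

end Pool.Agent.P.MP_2feb70_lc.Gr
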