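import Mathlib
import Pool.Agent.P.MP_2feb70_lc.Gr.Long
import Pool.Agent.P.MP_2feb70_lc.Gr.Short

namespace Pool.Agent.P.MP_2feb70_lc.Gr

variable {ρ : ℕ → Ordinal.{1}}

theorem lab_le_trans {i j k : ℕ} (h : lab_le ρ i j) (h' : lab_le ρ j k) : lab_le ρ i k :=
  ⟨h.1.trans h'.1, h.2.trans h'.2⟩

theorem J_wqo : WellQuasiOrdered fun X Y : Finset Pt => J ρ X ⊆ J ρ Y := by
  classical
  intro X
  have hpre : IsPreorder _ (lab_le ρ) :=
    { refl := fun a => ⟨le_rfl, le_rfl⟩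
      trans := fun _ _ _ => lab_le_trans }
  have hr : WellQuasiOrdered (lab_le ρ) := by
    have h2 : WellQuasiOrdered (fun a b : ℕ => a ≤ b) := wellQuasiOrdered_le
    have h3 : WellQuasiOrdered (fun a b : Ordinal.{1} => a ≤ b) := wellQuasiOrdered_le
    intro f
    exact h2.prod h3 fun k => (f k, ρ (f k))
  have hH := Set.PartiallyWellOrderedOn.partiallyWellOrderedOn_sublistForall₂ (lab_le ρ)
    (s := Set.univ) (Set.partiallyWellOrderedOn_of_wellQuasiOrdered hr _)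
  let l : ℕ → List ℕ := fun n => ((X n).toLeft.filter (· ∈ J ρ (X n))).toList
  have hl : ∀ n j, j ∈ l n ↔ j ∈ J ρ (X n) := fun n j => by
    simp only [l, Finset.mem_toList, Finset.mem_filter, Finset.mem_toLeft]
    exact ⟨fun h => h.2, fun h => ⟨(h j ⟨le_rfl, le_rfl⟩).1, h⟩⟩
  obtain ⟨n, m, hnm, h⟩ := hH fun n => ⟨l n, fun _ _ => Set.mem_univ _⟩
  obtain ⟨l', h1, h2⟩ := List.sublistForall₂_iff.1 h
  refine ⟨n, m, hnm, fun j hj => ?_⟩
  obtain ⟨i, hi, rfl⟩ := List.getElem_of_mem ((hl n j).2 hj)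
  have h3 := (List.forall₂_iff_get.1 h1).2 i hi (h1.length_eq ▸ hi)
  have h4 := (hl m _).1 (h2.subset (List.get_mem l' ⟨i, h1.length_eq ▸ hi⟩))
  exact fun j' hj' => h4 j' (lab_le_trans hj' h3)

theorem dom_wqo (X : ℕ → Finset Pt) (hX : ∀ n, ∀ x ∈ X n, x ∈ Dom ρ) :
    ∃ n m, n < m ∧ Emb ρ (X n) (X m) := by
  have : IsPreorder _ fun X Y : Finset Pt => J ρ X ⊆ J ρ Y :=
    { refl := fun a => subset_rfl
      trans := fun _ _ _ h h' => h.trans h' }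
  obtain ⟨g, hg⟩ := (J_wqo (ρ := ρ)).exists_monotone_subseq X
  obtain ⟨N, hN⟩ := long (hX (g 0))
  by_cases h : ∃ n e s, ∀ t ≤ N, Sum.inr (e, s + t) ∈ X (g (n + 1))
  · obtain ⟨n, h⟩ := h
    exact ⟨g 0, g (n + 1), g.strictMono (Nat.succ_pos n),
      hN _ (hX _) (hg _ _ (Nat.zero_le _)) h⟩
  · obtain ⟨n, m, hnm, h'⟩ := short (ρ := ρ) (fun n => X (g (n + 1))) N
      fun n e s h' => h ⟨n, e, s, h'⟩
    exact ⟨_, _, g.strictMono (Nat.succ_lt_succ hnm), h'⟩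

/-- Vertices: the points and five extra vertices. -/
abbrev V := Pt ⊕ Fin 5

/-- The gem on the extra vertices: path `1 0 2 4` with apex `3`. -/
def hadj (i j : Fin 5) : Prop :=
  (i ≠ j ∧ (i = 3 ∨ j = 3)) ∨ (i, j) ∈ [(1, 0), (0, 1), (0, 2), (2, 0), (2, 4), (4, 2)]

instance (i j : Fin 5) : Decidable (hadj i j) := by unfold hadj; infer_instance

/-- Adjacency between points. -/
def adjP (ρ : ℕ → Ordinal.{1}) (x y : Pt) : Prop :=
  Succ x y ∨ Succ y x ∨ lk (ft ρ x) (ft ρ y) ∨ lk (ft ρ y) (ft ρ x)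

/-- Adjacency. -/
def adjV (ρ : ℕ → Ordinal.{1}) : V → V → Prop
  | .inl x, .inl y => adjP ρ x y
  | .inl x, .inr i => (ft ρ x).1 ≠ 0 ∧ ((ft ρ x).1 : ℕ) = i
  | .inr i, .inl x => (ft ρ x).1 ≠ 0 ∧ ((ft ρ x).1 : ℕ) = i
  | .inr i, .inr j => hadj i j

theorem adjP_symm {x y : Pt} (h : adjP ρ x y) : adjP ρ y x := by
  unfold adjP at *; tauto

theorem adjV_symm {x y : V} (h : adjV ρ x y) : adjV ρ y x := by
  rcases x with x | i <;> rcases y with y | j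
  · exact adjP_symm h
  · exact h
  · exact h
  · change hadj _ _ at h ⊢
    revert i j; decide

theorem lk_fst {a b : Fin 4 × Nm} (h : lk a b) : a.1 = 1 ∧ (b.1 = 2 ∨ b.1 = 3) :=
  ⟨h.1, h.2.imp And.left And.left⟩

theorem adjP_irrefl (x : Pt) : ¬ adjP ρ x x := by
  have h1 : ¬ Succ x x := by
    rintro ⟨e, t, rfl, h⟩
    simp at h
  have h2 : ¬ lk (ft ρ x) (ft ρ x) := fun h => by
    obtain ⟨h3, h4⟩ := lk_fst h
    rw [h3] at h4
    simp at h4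
  unfold adjP; tauto

theorem adjV_irrefl (x : V) : ¬ adjV ρ x x := by
  rcases x with x | i
  · exact adjP_irrefl x
  · change ¬ hadj _ _
    revert i; decide

theorem graph_wqo (X : ℕ → Finset V) (hX : ∀ n x, Sum.inl x ∈ X n → x ∈ Dom ρ) :
    ∃ n m, n < m ∧ ∃ f : V → V, (∀ x ∈ X n, f x ∈ X m) ∧
      ∀ x ∈ X n, ∀ y ∈ X n, (f x = f y → x = y) ∧ (adjV ρ (f x) (f y) ↔ adjV ρ x y) := by
  have h0 : WellQuasiOrdered fun a b : Finset (Fin 5) => a = b := Finite.wellQuasiOrdered _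
  obtain ⟨g, hg⟩ := h0.exists_monotone_subseq fun n => (X n).toRight
  obtain ⟨n, m, hnm, f, f1, f2, f3⟩ := dom_wqo (ρ := ρ) (fun n => (X (g n)).toLeft)
    fun n x hx => hX _ x (Finset.mem_toLeft.1 hx)
  refine ⟨g n, g m, g.strictMono hnm, Sum.map f id, ?_, ?_⟩
  · rintro (x | i) hx
    · exact Finset.mem_toLeft.1 (f1 x (Finset.mem_toLeft.2 hx))
    · exact Finset.mem_toRight.1 (hg n m hnm.le ▸ Finset.mem_toRight.2 hx)
  · rintro (x | i) hx (y | j) hy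
    · have a := f3 x (Finset.mem_toLeft.2 hx) y (Finset.mem_toLeft.2 hy)
      have b := f3 y (Finset.mem_toLeft.2 hy) x (Finset.mem_toLeft.2 hx)
      refine ⟨fun h => congrArg _ (a.1 (Sum.inl.inj h)), ?_⟩
      change adjP ρ _ _ ↔ adjP ρ _ _
      rw [adjP, adjP, a.2.1, a.2.2, b.2.1, b.2.2]
    · refine ⟨fun h => (by cases h), ?_⟩
      simp only [Sum.map_inl, Sum.map_inr, adjV, id, f2 x (Finset.mem_toLeft.2 hx)]
    · refine ⟨fun h => (by cases h), ?_⟩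
      simp only [Sum.map_inl, Sum.map_inr, adjV, id, f2 y (Finset.mem_toLeft.2 hy)]
    · exact ⟨fun h => h, Iff.rfl⟩

end Pool.Agent.P.MP_2feb70_lc.Gr
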