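import Mathlib
import Pool.Agent.P.MP_2feb70_lc.Gr.Wqo

namespace Pool.Agent.P.MP_2feb70_lc.Gr

variable {ρ : ℕ → Ordinal.{1}}

theorem succ_zero {x y : Pt} (h : Succ x y) : (ft ρ x).1 = 0 ∨ (ft ρ y).1 = 0 := by
  obtain ⟨e, t, rfl, rfl⟩ := h
  by_contra h
  push Not at h
  have h1 := eight_dvd h.1
  have h2 := eight_dvd h.2
  omega

theorem adjP_of_zero {x y : Pt} (h : adjP ρ x y) (h0 : (ft ρ x).1 = 0 ∨ (ft ρ y).1 = 0) :
    Succ x y ∨ Succ y x := by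
  rcases h with h | h | h | h
  · exact Or.inl h
  · exact Or.inr h
  · obtain ⟨h1, h2 | h2⟩ := lk_fst h <;> simp [h1, h2] at h0
  · obtain ⟨h1, h2 | h2⟩ := lk_fst h <;> simp [h1, h2] at h0

theorem adjP_of_ne {x y : Pt} (h : adjP ρ x y) (hx : (ft ρ x).1 ≠ 0) (hy : (ft ρ y).1 ≠ 0) :
    lk (ft ρ x) (ft ρ y) ∨ lk (ft ρ y) (ft ρ x) := by
  rcases h with h | h | h | h
  · exact absurd (succ_zero (ρ := ρ) h) (by tauto)
  · exact absurd (succ_zero (ρ := ρ) h) (by tauto)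
  · exact Or.inl h
  · exact Or.inr h

theorem no_tri_zero {x y z : Pt} (h0 : (ft ρ x).1 = 0) (h1 : adjP ρ x y) (h2 : adjP ρ x z)
    (h3 : adjP ρ y z) : False := by
  have key : ∀ e t, ¬ adjP ρ (.inr (e, t)) (.inr (e, t + 2)) := by
    intro e t h
    by_cases a : (ft ρ (.inr (e, t))).1 = 0 ∨ (ft ρ (.inr (e, t + 2))).1 = 0
    · rcases adjP_of_zero h a with h | h <;> have := (succ_inr.1 h).2 <;> omega
    · push Not at a
      have h1 := eight_dvd a.1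
      have h2 := eight_dvd a.2
      omega
  rcases adjP_of_zero h1 (Or.inl h0) with ⟨e, t, rfl, rfl⟩ | ⟨e, t, rfl, rfl⟩ <;>
    rcases adjP_of_zero h2 (Or.inl h0) with ⟨e', t', a, rfl⟩ | ⟨e', t', rfl, a⟩
  · cases a; exact adjP_irrefl _ h3
  · cases a; exact key _ _ (adjP_symm h3)
  · cases a; exact key _ _ h3
  · cases a; exact adjP_irrefl _ h3

theorem no_tri {x y z : Pt} (h1 : adjP ρ x y) (h2 : adjP ρ x z) (h3 : adjP ρ y z) : False := by
  by_cases a : (ft ρ x).1 = 0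
  · exact no_tri_zero a h1 h2 h3
  by_cases b : (ft ρ y).1 = 0
  · exact no_tri_zero b (adjP_symm h1) h3 h2
  by_cases c : (ft ρ z).1 = 0
  · exact no_tri_zero c (adjP_symm h2) (adjP_symm h3) h1
  have key : ∀ {x y : Pt}, adjP ρ x y → (ft ρ x).1 ≠ 0 → (ft ρ y).1 ≠ 0 →
      ((ft ρ x).1 = 1 ↔ (ft ρ y).1 ≠ 1) := by
    intro x y h hx hy
    rcases adjP_of_ne h hx hy with h | h <;> obtain ⟨h1, h2 | h2⟩ := lk_fst h <;> simp [h1, h2]
  have := key h1 a b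
  have := key h2 a c
  have := key h3 b c
  tauto

theorem tri_inr {x y z : V} (h1 : adjV ρ x y) (h2 : adjV ρ x z) (h3 : adjV ρ y z) :
    ∃ i, x = .inr i := by
  have key : ∀ {a b : Pt} {i : Fin 5}, adjP ρ a b → adjV ρ (.inl a) (.inr i) →
      adjV ρ (.inl b) (.inr i) → False := by
    intro a b i h ha hb
    have h4 : (ft ρ a).1 = (ft ρ b).1 := Fin.ext (ha.2.trans hb.2.symm)
    rcases adjP_of_ne h ha.1 hb.1 with h | h <;> obtain ⟨h1, h2 | h2⟩ := lk_fst h <;>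
      simp [h1, h2] at h4
  rcases x with a | i
  swap
  · exact ⟨i, rfl⟩
  exfalso
  rcases y with b | i <;> rcases z with c | j
  · exact no_tri h1 h2 h3
  · exact key h1 h2 h3
  · exact key h2 h1 h3
  · obtain rfl : i = j := Fin.ext (h1.2.symm.trans h2.2)
    exact adjV_irrefl _ h3

theorem path_mono (u : ℕ → Pt) (L : ℕ) (hinj : ∀ t, t + 2 ≤ L → u (t + 2) ≠ u t)
    (hstep : ∀ t < L, Succ (u t) (u (t + 1)) ∨ Succ (u (t + 1)) (u t)) :
    (∀ t < L, Succ (u t) (u (t + 1))) ∨ (∀ t < L, Succ (u (t + 1)) (u t)) := by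
  rcases Nat.eq_zero_or_pos L with rfl | hL
  · exact Or.inl fun t ht => absurd ht (Nat.not_lt_zero _)
  refine (hstep 0 hL).imp (fun h t ht => ?_) fun h t ht => ?_
  · induction t with
    | zero => exact h
    | succ t ih =>
      refine (hstep _ ht).resolve_right fun ⟨e, s, a, b⟩ => ?_
      obtain ⟨e', s', c, d⟩ := ih (by omega)
      rw [b] at d
      cases d
      exact hinj t (by omega) (a.trans c.symm)
  · induction t with
    | zero => exact h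
    | succ t ih =>
      refine (hstep _ ht).resolve_left fun ⟨e, s, a, b⟩ => ?_
      obtain ⟨e', s', c, d⟩ := ih (by omega)
      rw [a] at c
      cases c
      exact hinj t (by omega) (b.trans d.symm)

theorem chain (u : ℕ → Pt) (L : ℕ) (h : ∀ t < L + 1, Succ (u t) (u (t + 1))) :
    ∃ e s, u 0 = .inr (e, s) ∧ u (L + 1) = .inr (e, s + (L + 1)) := by
  induction L with
  | zero =>
    obtain ⟨e, s, a, b⟩ := h 0 (by omega)
    exact ⟨e, s, a, b⟩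
  | succ L ih =>
    obtain ⟨e, s, a, b⟩ := ih fun t ht => h t (by omega)
    obtain ⟨e', s', c, d⟩ := h (L + 1) (by omega)
    rw [b] at c
    cases c
    exact ⟨e, s, a, d⟩

theorem start_cases {e : Edge} {t : ℕ} (h : (ft ρ (.inr (e, t))).1 = 2) :
    (t = 0 ∧ ft ρ (.inr (e, t)) = (2, mk e.1)) ∨
    (∃ e' ε w, v t = Sh e' ε w ∧ ε.1 = e'.1 ∧ ft ρ (.inr (e, t)) = (2, (ε, (w : ℕ∞)))) := by
  rcases ft_cases (ρ := ρ) e t with h1 | h1 | ⟨-, h1⟩ | ⟨ε, w, -, -, h1⟩ | h1 |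
    ⟨e', ε, w, -, -, h1⟩
  · rw [h1] at h; simp at h
  · exact Or.inl h1
  · rw [h1] at h; simp at h
  · rw [h1] at h; simp at h
  · exact Or.inr h1
  · rw [h1] at h; simp at h

theorem end_cases {e : Edge} {t : ℕ} (h : (ft ρ (.inr (e, t))).1 = 3) :
    (t = 2 ^ pE e ∧ ft ρ (.inr (e, t)) = (3, mk e.2)) ∨
    (∃ e' ε w, v t = pE e' ∧ v (t - 2 ^ pE e') = Sh e' ε w ∧
      ft ρ (.inr (e, t)) = (3, ((e'.2, 0), if ε = e' then (w : ℕ∞) else ⊤))) := by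
  rcases ft_cases (ρ := ρ) e t with h1 | ⟨-, h1⟩ | h1 | ⟨ε, w, -, -, h1⟩ | ⟨e', ε, w, -, -, h1⟩ | h1
  · rw [h1] at h; simp at h
  · rw [h1] at h; simp at h
  · exact Or.inl h1
  · rw [h1] at h; simp at h
  · rw [h1] at h; simp at h
  · exact Or.inr h1

theorem role_cases {x : Pt} (h : (ft ρ x).1 = 1) :
    (∃ k, x = .inl k) ∨ ∃ ε w, valid ρ ε ∧ (ft ρ x).2 = (ε, ((w : ℕ) : ℕ∞)) := by
  rcases x with k | ⟨e, t⟩
  · exact Or.inl ⟨k, rfl⟩
  rcases ft_cases (ρ := ρ) e t with h1 | ⟨-, h1⟩ | ⟨-, h1⟩ | ⟨ε, w, -, h2, h1⟩ |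
    ⟨e', ε, w, -, -, h1⟩ | ⟨e', ε, w, -, -, h1⟩
  · rw [h1] at h; simp at h
  · rw [h1] at h; simp at h
  · rw [h1] at h; simp at h
  · exact Or.inr ⟨ε, w, h2, by rw [h1]⟩
  · rw [h1] at h; simp at h
  · rw [h1] at h; simp at h

theorem v_add_pow {s p : ℕ} (hs : s ≠ 0) :
    (v s < p → v (s + 2 ^ p) = v s) ∧ (p < v s → v (s + 2 ^ p) = p) :=
  ⟨fun h => by rw [add_comm, v_add dvd_rfl hs h], fun h => by
    rw [v_add (pow_v_dvd s) (by positivity) (by rwa [v_pow]), v_pow]⟩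

theorem forward {e e'' : Edge} {s : ℕ} (h1 : (ft ρ (.inr (e'', s))).1 = 2)
    (h2 : (ft ρ (.inr (e'', s + 2 ^ pE e))).1 = 3) :
    (ft ρ (.inr (e'', s + 2 ^ pE e))).2.1.1 = e.2 ∧ ((ft ρ (.inr (e'', s))).2 = mk e.1 ∨
      ∃ (ε : Edge) (w : ℕ), ε.1 = e.1 ∧ (ft ρ (.inr (e'', s))).2 = (ε, (w : ℕ∞)) ∧
        (ε = e → (ft ρ (.inr (e'', s + 2 ^ pE e))).2.2 = w)) := by
  rcases start_cases h1 with ⟨rfl, a⟩ | ⟨e', ε, w, a1, a2, a⟩
  · rcases end_cases h2 with ⟨b1, b⟩ | ⟨e₁, ε₁, w₁, b1, b2, b⟩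
    · have h3 := congrArg v b1
      rw [zero_add, v_pow, v_pow] at h3
      obtain rfl := pE_inj h3
      rw [a, b]
      exact ⟨rfl, Or.inl rfl⟩
    · rw [zero_add, v_pow] at b1
      rw [zero_add, b1, Nat.sub_self, v_zero, Sh] at b2
      omega
  · have hs : s ≠ 0 := fun h => by rw [h, v_zero, Sh] at a1; omega
    have hE : ∃ e₂, v (s + 2 ^ pE e) = pE e₂ := by
      rcases end_cases h2 with ⟨b1, -⟩ | ⟨e₁, ε₁, w₁, b1, -⟩
      · exact ⟨e'', by rw [b1, v_pow]⟩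
      · exact ⟨e₁, b1⟩
    have hv : v (s + 2 ^ pE e) = pE e := by
      rcases lt_trichotomy (v s) (pE e) with h | h | h
      · obtain ⟨e₂, h3⟩ := hE
        rw [(v_add_pow hs).1 h, a1] at h3
        exact absurd h3.symm (pE_ne_Sh _ _ _ _)
      · exact absurd (h.symm.trans a1) (pE_ne_Sh _ _ _ _)
      · exact (v_add_pow hs).2 h
    rcases end_cases h2 with ⟨b1, b⟩ | ⟨e₁, ε₁, w₁, b1, b2, b⟩
    · rw [b1, v_pow] at hv
      rw [hv] at b1
      omega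
    · obtain rfl := pE_inj (hv.symm.trans b1)
      rw [Nat.add_sub_cancel, a1] at b2
      obtain ⟨rfl, rfl, rfl⟩ := Sh_inj b2
      rw [a, b]
      exact ⟨rfl, Or.inr ⟨ε, w, a2, rfl, fun h => if_pos h⟩⟩

theorem backward {e e'' : Edge} {s : ℕ} (h1 : (ft ρ (.inr (e'', s))).1 = 3)
    (h2 : (ft ρ (.inr (e'', s + 2 ^ pE e))).1 = 2) (h3 : s + 2 ^ pE e ≤ 2 ^ pE e'') : False := by
  have hp : 0 < 2 ^ pE e := by positivity
  rcases start_cases h2 with ⟨a, -⟩ | ⟨e', ε, w, a1, -⟩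
  · omega
  rcases end_cases h1 with ⟨b1, -⟩ | ⟨e₁, ε₁, w₁, b1, b2, -⟩
  · omega
  have h4 := three_le_pE e₁
  have hs : s ≠ 0 := fun h => by rw [h, v_zero] at b1; omega
  rcases lt_trichotomy (v s) (pE e) with h | h | h
  · rw [(v_add_pow hs).1 h, b1] at a1
    exact pE_ne_Sh _ _ _ _ a1
  · have h5 := (Sh_ge e₁ ε₁ w₁).1
    have h6 : s - 2 ^ pE e₁ ≠ 0 := fun h => by rw [h, v_zero] at b2; omega
    have h7 : s + 2 ^ pE e = s - 2 ^ pE e₁ + 2 ^ (pE e₁ + 1) := by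
      rw [← h, b1, pow_succ]
      generalize 2 ^ pE e₁ = y at h6
      omega
    rw [h7, (v_add_pow h6).2 (by omega)] at a1
    exact pE_succ_ne_Sh _ _ _ _ a1
  · rw [(v_add_pow hs).2 h] at a1
    exact pE_ne_Sh _ _ _ _ a1

/-- The points that the test graph of `k` uses. -/
def Tst (ρ : ℕ → Ordinal.{1}) (k : ℕ) : Set Pt := {x | x ∈ Dom ρ ∧ lab_le ρ (top x) k}

theorem recog_pt {k : ℕ} (hk : lab_lt ρ 0 k) (ψ : Pt → Pt) (hD : ∀ x ∈ Tst ρ k, ψ x ∈ Dom ρ)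
    (hinj : Set.InjOn ψ (Tst ρ k)) (hm : ∀ x ∈ Tst ρ k, (ft ρ (ψ x)).1 = (ft ρ x).1)
    (hadj : ∀ x ∈ Tst ρ k, ∀ y ∈ Tst ρ k, adjP ρ x y → adjP ρ (ψ x) (ψ y)) :
    ψ (.inl k) = .inl k := by
  have hlk : ∀ j, lab_le ρ j k → ∀ y ∈ Tst ρ k, lk (ft ρ (.inl j)) (ft ρ y) →
      lk (ft ρ (ψ (.inl j))) (ft ρ (ψ y)) := by
    intro j hj y hy h
    have hj' : (.inl j : Pt) ∈ Tst ρ k := ⟨inl_mem_Dom j, hj⟩
    have h1 : (ft ρ (ψ (.inl j))).1 = 1 := hm _ hj'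
    have h2 := (lk_fst h).2
    rw [← hm y hy] at h2
    refine (adjP_of_ne (hadj _ hj' _ hy (Or.inr (Or.inr (Or.inl h)))) (by simp [h1])
      (by rcases h2 with h2 | h2 <;> simp [h2])).resolve_right fun h3 => ?_
    rw [h3.1] at h2
    simp at h2
  have E : ∀ e, valid ρ e → lab_le ρ e.1 k → (ft ρ (ψ (.inl e.2))).2.1.1 = e.2 ∧
      ((ft ρ (ψ (.inl e.1))).2 = mk e.1 ∨ ∃ (ε : Edge) (w : ℕ), ε.1 = e.1 ∧
        (ft ρ (ψ (.inl e.1))).2 = (ε, (w : ℕ∞)) ∧ (ε = e → (ft ρ (ψ (.inl e.2))).2.2 ≤ w)) := by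
    intro e he hek
    have hT : ∀ t ≤ 2 ^ pE e, (.inr (e, t) : Pt) ∈ Tst ρ k := fun t ht =>
      ⟨inr_mem_Dom.2 ⟨he, ht⟩, hek⟩
    have m0 : (ft ρ (ψ (.inr (e, 0)))).1 = 2 := by rw [hm _ (hT 0 (Nat.zero_le _)), ft_zero]
    have m1 : (ft ρ (ψ (.inr (e, 2 ^ pE e)))).1 = 3 := by rw [hm _ (hT _ le_rfl), ft_end]
    have l0 := hlk e.1 hek _ (hT 0 (Nat.zero_le _)) (by rw [ft_zero]; simp [ft, lk])
    have l1 := hlk e.2 (lab_le_trans ⟨he.1.le, he.2⟩ hek) _ (hT _ le_rfl)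
      (by rw [ft_end]; simp [ft, lk])
    have l0' := (l0.2.resolve_right fun h => by rw [m0] at h; simp at h).2
    have l1' := (l1.2.resolve_left fun h => by rw [m1] at h; simp at h).2
    obtain ⟨L, hL⟩ : ∃ L, 2 ^ pE e = L + 1 := ⟨2 ^ pE e - 1, by
      have : 0 < 2 ^ pE e := by positivity
      omega⟩
    rcases path_mono (fun t => ψ (.inr (e, t))) (L + 1)
      (fun t ht h => by
        have := hinj (hT _ (by omega)) (hT _ (by omega)) h
        simp at this)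
      (fun t ht => by
        have h1 : Succ (.inr (e, t)) (.inr (e, t + 1)) := ⟨e, t, rfl, rfl⟩
        refine adjP_of_zero (ρ := ρ) (hadj _ (hT _ (by omega)) _ (hT _ (by omega)) (Or.inl h1)) ?_
        rw [hm _ (hT _ (by omega)), hm _ (hT _ (by omega))]
        exact succ_zero h1) with h | h
    · obtain ⟨e'', s, a, b⟩ := chain _ L h
      rw [← hL] at b
      rw [a] at m0 l0'
      rw [b] at m1 l1'
      obtain ⟨f1, f2⟩ := forward m0 m1
      rw [l0', l1'.1]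
      refine ⟨f1, f2.imp id fun ⟨ε, w, g1, g2, g3⟩ => ⟨ε, w, g1, g2, fun h => g3 h ▸ l1'.2⟩⟩
    · obtain ⟨e'', s, a, b⟩ := chain (fun t => ψ (.inr (e, L + 1 - t))) L fun t ht => by
        have := h (L - t) (by omega)
        rwa [show L - t + 1 = L + 1 - t by omega, show L - t = L + 1 - (t + 1) by omega] at this
      simp only [Nat.sub_zero, Nat.sub_self] at a b
      rw [← hL] at a b
      have h3 := hD _ (hT 0 (Nat.zero_le _))
      rw [b] at m0 h3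
      rw [a] at m1
      exact (backward m1 m0 (inr_mem_Dom.1 h3).2).elim
  have hid : ∀ j, lab_le ρ j k → (ft ρ (ψ (.inl j))).2.1.1 = j := by
    intro j hj
    rcases hj.1.eq_or_lt with rfl | h
    · rcases (E (j, 0) hk hj).2 with h | ⟨ε, w, h1, h, -⟩
      · rw [h]; rfl
      · rw [h]; exact h1
    · exact (E (k, j) ⟨h, hj.2⟩ ⟨le_rfl, le_rfl⟩).1
  have main : ∀ j, lab_le ρ j k → ψ (.inl j) = .inl j := by
    intro j
    induction j using Nat.strong_induction_on with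
    | _ j ih =>
      intro hj
      have h1 := hid j hj
      rcases role_cases (hm (.inl j) ⟨inl_mem_Dom j, hj⟩) with ⟨i, h⟩ | ⟨ε, w, h2, h⟩
      · rw [h] at h1 ⊢
        exact congrArg _ h1
      · rw [h] at h1
        obtain rfl : ε.1 = j := h1
        exfalso
        rcases (E ε h2 hj).2 with h3 | ⟨ε', w', -, h3, h4⟩
        · rw [h] at h3
          exact ENat.natCast_ne_top _ (congrArg Prod.snd h3)
        · rw [h] at h3
          have h5 := h4 (congrArg Prod.fst h3).symm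
          rw [ih ε.2 h2.1 (lab_le_trans ⟨h2.1.le, h2.2⟩ hj)] at h5
          exact ENat.natCast_ne_top _ (top_le_iff.1 h5)
  exact main k ⟨le_rfl, le_rfl⟩

set_option synthInstance.maxSize 2000 in
theorem gem_fix : ∀ a b c d e : Fin 5, hadj d a → hadj d b → hadj d c → hadj d e → hadj b a →
    hadj a c → hadj c e → ¬ hadj b c → b ≠ c → a ≠ e → b ≠ e → b ≠ 0 → b ≠ 4 → c ≠ 0 → c ≠ 4 →
    b = 1 ∧ c = 2 ∧ d = 3 := by decide +kernel

/-- The vertices of the test graph of `k`. -/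
def TstV (ρ : ℕ → Ordinal.{1}) (k : ℕ) : Set V := {x | ∀ y, x = .inl y → y ∈ Tst ρ k}

theorem recog {k : ℕ} (hk : lab_lt ρ 0 k) (φ : V → V)
    (hD : ∀ x ∈ TstV ρ k, ∀ y, φ x = .inl y → y ∈ Dom ρ) (hinj : Set.InjOn φ (TstV ρ k))
    (hadj : ∀ x ∈ TstV ρ k, ∀ y ∈ TstV ρ k, adjV ρ (φ x) (φ y) ↔ adjV ρ x y) :
    φ (.inl (.inl k)) = .inl (.inl k) := by
  have hr : ∀ i, (.inr i : V) ∈ TstV ρ k := fun i y h => by cases h
  have hl : ∀ x ∈ Tst ρ k, (.inl x : V) ∈ TstV ρ k := fun x hx y h => by cases h; exact hx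
  have h1 : ∀ i, ∃ j, φ (.inr i) = .inr j := by
    intro i
    obtain ⟨a, b, h1, h2, h3⟩ : ∃ a b, Gr.hadj i a ∧ Gr.hadj i b ∧ Gr.hadj a b := by
      revert i; decide
    exact tri_inr ((hadj _ (hr i) _ (hr a)).2 h1) ((hadj _ (hr i) _ (hr b)).2 h2)
      ((hadj _ (hr a) _ (hr b)).2 h3)
  choose π hπ using h1
  have πinj : Function.Injective π := fun i j h =>
    Sum.inr.inj (hinj (hr i) (hr j) (by rw [hπ, hπ, h]))
  have πadj : ∀ i j, Gr.hadj (π i) (π j) ↔ Gr.hadj i j := fun i j => by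
    have := hadj _ (hr i) _ (hr j)
    rwa [hπ, hπ] at this
  have h2 : ∀ x, ∃ y, x ∈ Tst ρ k → φ (.inl x) = .inl y := by
    intro x
    rcases h : φ (.inl x) with y | j
    · exact ⟨y, fun _ => rfl⟩
    · refine ⟨x, fun hx => ?_⟩
      obtain ⟨i, rfl⟩ := Finite.injective_iff_surjective.1 πinj j
      cases hinj (hl x hx) (hr i) (h.trans (hπ i).symm)
  choose ψ hψ using h2
  have h3 : ∀ x ∈ Tst ρ k, ∀ i, adjV ρ (.inl (ψ x)) (.inr (π i)) ↔ adjV ρ (.inl x) (.inr i) := by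
    intro x hx i
    rw [← hψ x hx, ← hπ]
    exact hadj _ (hl x hx) _ (hr i)
  have h4 : ∀ x ∈ Tst ρ k, ∀ i, adjV ρ (.inl x) (.inr i) → π i ≠ 0 ∧ π i ≠ 4 := by
    intro x hx i h
    obtain ⟨a, b⟩ := (h3 x hx i).2 h
    have := (ft ρ (ψ x)).1.2
    refine ⟨fun h => a (Fin.ext ?_), fun h => ?_⟩
    · rw [b, h]; rfl
    · rw [h] at b
      change _ = 4 at b
      omega
  have t1 := h4 (.inl k) ⟨inl_mem_Dom k, le_rfl, le_rfl⟩ 1 (by simp [adjV, ft])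
  have t2 := h4 (.inr ((k, 0), 0)) ⟨inr_mem_Dom.2 ⟨hk, Nat.zero_le _⟩, le_rfl, le_rfl⟩ 2
    (by simp [adjV, ft])
  obtain ⟨p1, p2, p3⟩ := gem_fix (π 0) (π 1) (π 2) (π 3) (π 4)
    ((πadj _ _).2 (by decide)) ((πadj _ _).2 (by decide)) ((πadj _ _).2 (by decide))
    ((πadj _ _).2 (by decide)) ((πadj _ _).2 (by decide)) ((πadj _ _).2 (by decide))
    ((πadj _ _).2 (by decide)) (fun h => absurd ((πadj _ _).1 h) (by decide))
    (πinj.ne (by decide)) (πinj.ne (by decide)) (πinj.ne (by decide)) t1.1 t1.2 t2.1 t2.2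
  rw [hψ _ ⟨inl_mem_Dom k, le_rfl, le_rfl⟩, recog_pt hk ψ
    (fun x hx => hD _ (hl x hx) _ (hψ x hx))
    (fun x hx y hy h => Sum.inl.inj (hinj (hl x hx) (hl y hy) (by rw [hψ x hx, hψ y hy, h])))
    (fun x hx => ?_) fun x hx y hy h => ?_]
  · have q1 := h3 x hx 1
    have q2 := h3 x hx 2
    have q3 := h3 x hx 3
    rw [p1] at q1
    rw [p2] at q2
    rw [p3] at q3
    simp only [adjV] at q1 q2 q3
    revert q1 q2 q3
    generalize (ft ρ (ψ x)).1 = a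
    generalize (ft ρ x).1 = b
    revert a b
    decide
  · have := (hadj _ (hl x hx) _ (hl y hy)).2 h
    rwa [hψ x hx, hψ y hy] at this

theorem TstV_finite (k : ℕ) : (TstV ρ k).Finite := by
  have h1 : (Tst ρ k).Finite := by
    refine ((((Set.finite_Iic k).image Sum.inl).union (Set.Finite.image Sum.inr
      (((Set.finite_Iic k).prod (Set.finite_Iic k)).biUnion
        (t := fun e : Edge => (fun t => (e, t)) '' Set.Iic (2 ^ pE e))
        fun e _ => (Set.finite_Iic _).image _)))).subset ?_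
    rintro (j | ⟨e, t⟩) ⟨h1, h2⟩
    · exact Or.inl ⟨j, h2.1, rfl⟩
    · obtain ⟨h3, h4⟩ := inr_mem_Dom.1 h1
      exact Or.inr ⟨(e, t), Set.mem_biUnion (x := e) ⟨h2.1, h3.1.le.trans h2.1⟩ ⟨t, h4, rfl⟩, rfl⟩
  refine ((h1.image Sum.inl).union (Set.finite_range Sum.inr)).subset ?_
  rintro (x | i) hx
  · exact Or.inl ⟨x, hx x rfl, rfl⟩
  · exact Or.inr ⟨i, rfl⟩

end Pool.Agent.P.MP_2feb70_lc.Gr
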