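import Mathlib
import Pool.Agent.P.MP_2feb70_lc.Main
import Pool.Agent.P.MP_2feb70_lc.Gr.Rec

namespace Pool.Agent.P.MP_2feb70_lc.Gr

open FirstOrder CategoryTheory FirstOrder.Language FirstOrder.Language.Structure Ordinal

variable {ρ : ℕ → Ordinal.{1}}

/-- The countable graph whose age has large height. -/
def bigGraph (ρ : ℕ → Ordinal.{1}) : SimpleGraph V :=
  ⟨adjV ρ, ⟨fun _ _ => adjV_symm⟩, ⟨adjV_irrefl⟩⟩

/-- The graph as a bundled structure. -/
def GB (ρ : ℕ → Ordinal.{1}) : Bundled.{0} Language.graph.Structure :=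
  ⟨V, (bigGraph ρ).structure⟩

/-- The vertices in use. -/
def DV (ρ : ℕ → Ordinal.{1}) : Set (GB ρ) := {x : V | ∀ y, x = .inl y → y ∈ Dom ρ}

theorem relMap_iff (x : Fin 2 → GB ρ) :
    RelMap (L := Language.graph) adj x ↔ adjV ρ (x 0) (x 1) := Iff.rfl

theorem age_wqo (N : ℕ → Bundled.{0} Language.graph.Structure)
    (hN : ∀ k, N k ∈ ageIn Language.graph (GB ρ) (DV ρ)) :
    ∃ k k', k < k' ∧ Nonempty (N k ↪[Language.graph] N k') := by
  choose h1 e he using hN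
  have hfin : ∀ k, (Set.range fun x => (e k x : V)).Finite := fun k => by
    have := h1 k; exact Set.finite_range _
  obtain ⟨k, k', hk, g, g1, g2⟩ := graph_wqo (ρ := ρ) (fun k => (hfin k).toFinset)
    fun k x hx => he k ((hfin k).mem_toFinset.1 hx) x rfl
  have h0 : ∀ x : N k, (e k x : V) ∈ (hfin k).toFinset := fun x =>
    (hfin k).mem_toFinset.2 ⟨x, rfl⟩
  have h2 : ∀ x : N k, ∃ y : N k', (e k' y : V) = g (e k x) := fun x =>
    (hfin k').mem_toFinset.1 (g1 _ (h0 x))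
  choose f hf using h2
  refine ⟨k, k', hk, ⟨mkEmb f ?_ ?_⟩⟩
  · intro x y h
    refine (e k).injective ((g2 _ (h0 x) _ (h0 y)).1 ?_)
    rw [← hf, ← hf, h]
  · rintro n ⟨⟩ x
    rw [← (e k').map_rel adj (f ∘ x), ← (e k).map_rel adj x, relMap_iff, relMap_iff]
    simp only [Function.comp_apply]
    rw [hf, hf]
    exact (g2 _ (h0 _) _ (h0 _)).2

theorem age_wf : IsWellFounded (Subages Language.graph (ageIn Language.graph (GB ρ) (DV ρ)))
    (Below Language.graph _) := by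
  refine ⟨wellFounded_iff_isEmpty_descending_chain.2 ⟨fun ⟨B, hB⟩ => ?_⟩⟩
  have h1 : ∀ k, ∃ G ∈ (B k).1, G ∉ (B (k + 1)).1 := fun k => Set.exists_of_ssubset (hB k)
  choose G hG1 hG2 using h1
  have anti : Antitone fun k => (B k).1 := antitone_nat_of_succ_le fun k => (hB k).1
  obtain ⟨k, k', hk, h⟩ := age_wqo G fun k => (B k).2.2 (hG1 k)
  exact hG2 k ((B (k + 1)).2.1.2.1 _ (anti (Nat.succ_le_of_lt hk) (hG1 k')) _ h)

/-- The sub-age that uses only the markers of rank below `β`. -/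
def lvl (ρ : ℕ → Ordinal.{1}) (β : Ordinal.{1}) :
    Subages Language.graph (ageIn Language.graph (GB ρ) (DV ρ)) :=
  ⟨ageIn Language.graph (GB ρ) {x | x ∈ DV ρ ∧ ∀ k, x = (.inl (.inl k) : V) → ρ k < β},
    isAge_ageIn _ _, ageIn_mono _ fun _ h => h.1⟩

theorem lvl_below {β γ : Ordinal.{1}} (h : β < γ) {k : ℕ} (hk : lab_lt ρ 0 k) (hj : ρ k = β) :
    Below Language.graph _ (lvl ρ β) (lvl ρ γ) := by
  classical
  refine ⟨ageIn_mono _ fun q hq => ⟨hq.1, fun j hj => (hq.2 j hj).trans h⟩, fun hsub => ?_⟩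
  let S : Set (GB ρ) := TstV ρ k
  have hS : S.Finite := TstV_finite k
  let inst : Language.graph.Structure S := comapStr (Subtype.val : S → GB ρ)
  have h1 : (⟨S, inst⟩ : Bundled.{0} Language.graph.Structure) ∈ (lvl ρ γ).1 := by
    refine ⟨hS, mkEmb Subtype.val Subtype.val_injective fun _ _ _ => Iff.rfl, ?_⟩
    rintro _ ⟨x, rfl⟩
    exact ⟨fun y hy => (x.2 y hy).1, fun j hj' => ((x.2 _ hj').2.2.trans hj.le).trans_lt h⟩
  obtain ⟨-, e, he⟩ := hsub h1
  let φ : V → V := fun x => if hx : x ∈ TstV ρ k then e ⟨x, hx⟩ else x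
  have hφ : ∀ x (hx : x ∈ TstV ρ k), φ x = e ⟨x, hx⟩ := fun x hx => dif_pos hx
  have hk' : (.inl (.inl k) : V) ∈ TstV ρ k := fun y h => by
    cases h; exact ⟨inl_mem_Dom k, le_rfl, le_rfl⟩
  have h2 := recog hk φ (fun x hx y h => (he ⟨⟨x, hx⟩, rfl⟩).1 y ((hφ x hx).symm.trans h))
    (fun x hx y hy h => by
      rw [hφ x hx, hφ y hy] at h
      exact congrArg Subtype.val (e.injective h))
    (fun x hx y hy => by
      rw [hφ x hx, hφ y hy]
      exact e.map_rel adj ![⟨x, hx⟩, ⟨y, hy⟩])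
  rw [hφ _ hk'] at h2
  exact absurd ((he ⟨_, rfl⟩).2 k h2) (by rw [hj]; exact lt_irrefl _)

theorem le_rank_lvl {α : Ordinal.{1}} (hρ : ∀ β < α, ∃ k, lab_lt ρ 0 k ∧ ρ k = β)
    (β : Ordinal.{1}) (hβ : β ≤ α) :
    β ≤ @IsWellFounded.rank _ (Below Language.graph _) age_wf (lvl ρ β) := by
  induction β using WellFoundedLT.induction with
  | ind β ih =>
    refine le_of_forall_lt fun γ hγ => ?_
    obtain ⟨j, hj0, hj⟩ := hρ γ (hγ.trans_le hβ)
    exact (ih γ hγ (hγ.le.trans hβ)).trans_lt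
      (@IsWellFounded.rank_lt_of_rel _ _ _ _ age_wf (lvl_below hγ hj0 hj))

theorem model_of_mem {X : Set (GB ρ)} {G : Bundled.{0} Language.graph.Structure}
    (h : G ∈ ageIn Language.graph (GB ρ) X) : G ⊨ Theory.simpleGraph := by
  obtain ⟨-, e, -⟩ := h
  have key : ∀ x y : G, RelMap (L := Language.graph) adj ![x, y] ↔ adjV ρ (e x) (e y) :=
    fun x y => (e.map_rel adj ![x, y]).symm
  rw [Theory.simpleGraph_model_iff]
  exact ⟨⟨fun x h => adjV_irrefl _ ((key x x).1 h)⟩,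
    ⟨fun x y h => (key y x).2 (adjV_symm ((key x y).1 h))⟩⟩

theorem exists_graph_height {α : Ordinal.{1}} (hα : α < ω₁) :
    ∃ (A : Set (Bundled.{0} Language.graph.Structure)) (hA : IsAge Language.graph A)
      (_ : IsWellFounded (Subages Language.graph A) (Below Language.graph A)),
      (∀ G ∈ A, G ⊨ Theory.simpleGraph) ∧
      (A.PartiallyWellOrderedOn fun G H => Nonempty (G ↪[Language.graph] H)) ∧
      height Language.graph A hA = α := by
  have hc : (Set.Iic α).Countable := by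
    rw [← Set.Iio_insert]
    refine Set.Countable.insert _ ?_
    rw [← Set.countable_coe_iff, ← Cardinal.mk_le_aleph0_iff, Cardinal.mk_Iio_ordinal,
      Cardinal.lift_le_aleph0, ← Cardinal.lt_aleph_one_iff]
    exact Cardinal.lt_omega_iff_card_lt.1 hα
  obtain ⟨σ, hσ⟩ := hc.exists_eq_range ⟨α, Set.mem_Iic.2 le_rfl⟩
  let ρ : ℕ → Ordinal.{1} := fun n => Nat.casesOn n 0 σ
  have hρ' : ∀ β < α, ∃ k, lab_lt ρ 0 k ∧ ρ k = β := fun β hβ => by
    obtain ⟨j, hj⟩ : β ∈ Set.range σ := hσ ▸ hβ.le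
    exact ⟨j + 1, ⟨Nat.succ_pos j, zero_le⟩, hj⟩
  have := age_wf (ρ := ρ)
  obtain ⟨B, hB⟩ := IsWellFounded.mem_range_rank_of_le (le_rank_lvl hρ' α le_rfl)
  obtain ⟨h1, h2⟩ := restrict B
  refine ⟨B.1, B.2.1, h1, fun G hG => model_of_mem (B.2.2 hG), fun N => ?_, h2.trans hB⟩
  exact age_wqo (fun k => (N k).1) fun k => B.2.2 (N k).2

end Pool.Agent.P.MP_2feb70_lc.Gr
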